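import Pool.Agent.Q177.OS.Evo

/-!
# One-sided twist at one maximum point: criteria by the energy
-/

set_option autoImplicit false

open MeasureTheory Set Topology Filter
open scoped NNReal ENNReal Pointwise

namespace Q177.OS

open Pool.Agent.H708R2.EulerSign Pool.Agent.H708R2.EulerTypeI
open Pool.Agent.W786.Dir Pool.Agent.W786.Max Q177.EF

variable {T : ℝ} {u : ℝ → V → V} {p : ℝ → V → ℝ}

lemma Tw_mono {v : V → V} {x₀ e : V} {ρ ρ' a : ℝ} (hρ' : 0 < ρ') (hle : ρ' ≤ ρ)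
    (h : Tw v x₀ e ρ a) : Tw v x₀ e ρ' a := by
  intro y hy
  obtain ⟨h1, h2⟩ := h y (hy.trans_le hle)
  refine ⟨h1, le_trans (neg_le_neg ?_) h2⟩
  have h3 : 0 ≤ nrm (vort v y) * nrm (y - x₀) ^ 3 :=
    mul_nonneg (nrm_nonneg _) (pow_nonneg (nrm_nonneg _) 3)
  gcongr

lemma nrm_dirv {v : V → V} {x : V} : nrm (dirv v x) ≤ 1 := by
  unfold dirv
  by_cases h0 : nrm (vort v x) = 0
  · rw [h0, inv_zero, zero_smul]
    have : nrm (0 : V) = 0 := by unfold nrm; simp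
    rw [this]; exact zero_le_one
  · have hp : 0 < nrm (vort v x) := lt_of_le_of_ne (nrm_nonneg _) (Ne.symm h0)
    rw [nrm_smul, abs_of_pos (by positivity), inv_mul_cancel₀ h0]

lemma Pq_eq (t : ℝ) (x : V) : Pq u t x = Wq u t x * rate (u t) (dirv (u t) x) x := by
  unfold Pq
  rw [Wq_eq]
  by_cases h0 : nrm (vort (u t) x) = 0
  · have h1 : vort (u t) x = 0 := nrm_eq_zero h0
    rw [h0, h1]
    simp
  · have h2 : vort (u t) x = nrm (vort (u t) x) • dirv (u t) x := by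
      unfold dirv
      rw [smul_smul, mul_inv_cancel₀ h0, one_smul]
    set n := nrm (vort (u t) x)
    rw [h2, Matrix.mulVec_smul, smul_dotProduct, dotProduct_smul, smul_eq_mul, smul_eq_mul, rate]
    ring

lemma En_int (h : IsC2Solution T u p) {t : ℝ} (ht : t ∈ Ico 0 T) :
    ∫ x in Dom, nrm (u t x) ^ 2 = En u 0 := by
  rw [← energy_const h.sol ht]
  unfold En
  simp only [nrm_sq]

/-- The rate at a maximum point. -/
theorem rate_at_max (h : IsC2Solution T u p) {t : ℝ} (ht : t ∈ Ioo 0 T) {x : V}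
    (hx : IsMaxPt u t x) {ρ a E : ℝ} (hρ : 0 < ρ) (hρπ : ρ ≤ Real.pi) (ha : 0 < a) (ha1 : a ≤ 1)
    (hM : 0 < nrm (vort (u t) x)) (hE : 0 < E) (hEu : En u 0 ≤ E ^ 2)
    (hb : Tw (u t) x (dirv (u t) x) ρ a) :
    Pq u t x ≤ Ken / a * (E * ρ ^ (-(5 / 2) : ℝ)
      + ρ⁻¹ * (E ^ (2 / 5 : ℝ) * nrm (vort (u t) x) ^ (3 / 5 : ℝ))) * Wq u t x := by
  have htI : t ∈ Ico 0 T := ⟨ht.1.le, ht.2⟩
  have h1 := rate_le (slice_two h ht) (h.sol.periodic_u t htI) (h.sol.div_free t htI)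
    nrm_dirv hρ hρπ ha ha1 hb hx hM hE (by rw [En_int h htI]; exact hEu)
  rw [Pq_eq, mul_comm]
  exact mul_le_mul_of_nonneg_right h1 (Wq_nonneg t x)

lemma vmax_eq (h : IsC2Solution T u p) {t : ℝ} (ht : t ∈ Ico 0 T) {x : V} (hx : IsMaxPt u t x) :
    nrm (vort (u t) x) = vmax (u t) :=
  le_antisymm (le_vmax h.sol ht x) (ciSup_le hx)

/-- The integral criterion. -/
theorem int_criterion (h : IsC2Solution T u p) {a : ℝ} (ha : 0 < a) (ha1 : a ≤ 1) {ρ Λ : ℝ → ℝ}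
    (hρi : IntegrableOn (fun t => ρ t ^ (-(5 / 2) : ℝ) + (ρ t)⁻¹ * vmax (u t) ^ (3 / 5 : ℝ))
      (Ioo 0 T))
    (hΛ : MonotoneOn Λ (Ioo 0 T)) (hΛi : IntegrableOn Λ (Ioo 0 T)) (hΛ0 : ∀ t ∈ Ioo 0 T, 0 ≤ Λ t)
    (hρ : ∀ t ∈ Ioo 0 T, 0 < ρ t ∧ ρ t ≤ Real.pi)
    (hyp : ∀ᵐ t, t ∈ Ioo 0 T → ∃ x, IsMaxPt u t x ∧
      (Λ t < nrm (vort (u t) x) → Tw (u t) x (dirv (u t) x) (ρ t) a)) :
    BKMFinite T u := by
  set E : ℝ := max 1 (Real.sqrt (En u 0)) with hE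
  have hE1 : 1 ≤ E := le_max_left _ _
  have hE0 : 0 < E := by linarith
  have hEu : En u 0 ≤ E ^ 2 := by
    have h1 : Real.sqrt (En u 0) ≤ E := le_max_right _ _
    calc En u 0 = Real.sqrt (En u 0) ^ 2 := (Real.sq_sqrt (En_nonneg 0)).symm
      _ ≤ E ^ 2 := pow_le_pow_left₀ (Real.sqrt_nonneg _) h1 2
  have hK := Ken_pos
  refine gen_bkm h (β := fun t => Ken / a * (E * (ρ t ^ (-(5 / 2) : ℝ)
    + (ρ t)⁻¹ * vmax (u t) ^ (3 / 5 : ℝ)))) ?_ ((hρi.const_mul E).const_mul _) hΛ hΛi ?_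
  · intro t ht
    have h1 := (hρ t ht).1
    have h2 := vmax_nonneg (u t)
    positivity
  · filter_upwards [hyp] with t ht htI
    obtain ⟨x, hx, hx2⟩ := ht htI
    refine ⟨x, hx, fun hlt => ?_⟩
    have hM : 0 < nrm (vort (u t) x) := (hΛ0 t htI).trans_lt hlt
    have h1 := rate_at_max h htI hx (hρ t htI).1 (hρ t htI).2 ha ha1 hM hE0 hEu (hx2 hlt)
    refine h1.trans (mul_le_mul_of_nonneg_right ?_ (Wq_nonneg t x))
    rw [← vmax_eq h ⟨htI.1.le, htI.2⟩ hx]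
    have hρ0 := (hρ t htI).1
    have hE25 : E ^ (2 / 5 : ℝ) ≤ E := by
      calc E ^ (2 / 5 : ℝ) ≤ E ^ (1 : ℝ) := Real.rpow_le_rpow_of_exponent_le hE1 (by norm_num)
        _ = E := Real.rpow_one E
    have h3 : (ρ t)⁻¹ * (E ^ (2 / 5 : ℝ) * nrm (vort (u t) x) ^ (3 / 5 : ℝ))
        ≤ E * ((ρ t)⁻¹ * nrm (vort (u t) x) ^ (3 / 5 : ℝ)) := by
      have h4 : 0 < nrm (vort (u t) x) ^ (3 / 5 : ℝ) := Real.rpow_pos_of_pos hM _
      calc (ρ t)⁻¹ * (E ^ (2 / 5 : ℝ) * nrm (vort (u t) x) ^ (3 / 5 : ℝ))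
          ≤ (ρ t)⁻¹ * (E * nrm (vort (u t) x) ^ (3 / 5 : ℝ)) := by gcongr
        _ = _ := by ring
    refine mul_le_mul_of_nonneg_left ?_ (by positivity)
    rw [mul_add]
    linarith

/-- Power rates. -/
theorem rates (hT : 0 < T) (h : IsC2Solution T u p) {a : ℝ} (ha : 0 < a) (ha1 : a ≤ 1)
    {C m k g : ℝ} (hC : 0 < C) (hk : 0 < k) (hg0 : 0 ≤ g) (hg : 5 / 2 * g < 1)
    (hmg : 3 / 5 * m + g < 1)
    (hM : ∀ᶠ t in 𝓝[<] T, vmax (u t) ≤ C * (T - t) ^ (-m))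
    (hyp : ∀ᶠ t in 𝓝[<] T, ∃ x, IsMaxPt u t x ∧
      ((T - t) ^ (-(1 / 2) : ℝ) < nrm (vort (u t) x) →
        ∃ ρ, k * (T - t) ^ g ≤ ρ ∧ Tw (u t) x (dirv (u t) x) ρ a)) :
    BKMFinite T u := by
  -- enlarge the exponents
  set θ : ℝ := max 0 (max (5 / 2 * g) (g + 3 / 5 * m)) with hθ
  have hθ1 : θ < 1 := max_lt one_pos (max_lt hg (by linarith))
  have hθ0 : 0 ≤ θ := le_max_left _ _
  have hθg : 5 / 2 * g ≤ θ := (le_max_left _ _).trans (le_max_right _ _)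
  have hθm : g + 3 / 5 * m ≤ θ := (le_max_right _ _).trans (le_max_right _ _)
  set E : ℝ := max 1 (Real.sqrt (En u 0)) with hE
  have hE1 : 1 ≤ E := le_max_left _ _
  have hE0 : 0 < E := by linarith
  have hEu : En u 0 ≤ E ^ 2 := by
    have h1 : Real.sqrt (En u 0) ≤ E := le_max_right _ _
    calc En u 0 = Real.sqrt (En u 0) ^ 2 := (Real.sq_sqrt (En_nonneg 0)).symm
      _ ≤ E ^ 2 := pow_le_pow_left₀ (Real.sqrt_nonneg _) h1 2
  have hK := Ken_pos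
  -- the starting time
  have hsmall : ∀ᶠ t in 𝓝[<] T, T - t ≤ 1 := by
    have : ∀ᶠ t in 𝓝 T, T - 1 < t := lt_mem_nhds (by linarith)
    filter_upwards [nhdsWithin_le_nhds this] with t ht
    linarith
  obtain ⟨t₀, ht₀, hP⟩ : ∃ t₀ ∈ Ioo 0 T, ∀ t ∈ Ico t₀ T, (vmax (u t) ≤ C * (T - t) ^ (-m) ∧
      ∃ x, IsMaxPt u t x ∧ ((T - t) ^ (-(1 / 2) : ℝ) < nrm (vort (u t) x) →
        ∃ ρ, k * (T - t) ^ g ≤ ρ ∧ Tw (u t) x (dirv (u t) x) ρ a)) ∧ T - t ≤ 1 := by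
    have h1 := (hM.and hyp).and hsmall
    rw [eventually_nhdsWithin_iff, Metric.eventually_nhds_iff] at h1
    obtain ⟨δ, hδ, h2⟩ := h1
    refine ⟨T - min (δ / 2) (T / 2), ⟨?_, ?_⟩, fun t ht => h2 ?_ ht.2⟩
    · have : min (δ / 2) (T / 2) ≤ T / 2 := min_le_right _ _
      linarith
    · have : 0 < min (δ / 2) (T / 2) := by positivity
      linarith
    · rw [Real.dist_eq, abs_lt]
      have : min (δ / 2) (T / 2) ≤ δ / 2 := min_le_left _ _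
      constructor
      · linarith [ht.1]
      · linarith [ht.2]
  obtain ⟨B, hB0, hB⟩ := vmax_bound h.sol ht₀.2
  -- the data
  set k' : ℝ := min k Real.pi with hk'
  have hk'0 : 0 < k' := lt_min hk Real.pi_pos
  set D : ℝ := Ken / a * (E * (k' ^ (-(5 / 2) : ℝ) + k'⁻¹ * C ^ (3 / 5 : ℝ))) with hD
  have hD0 : 0 < D := by
    have h1 : 0 < k' ^ (-(5 / 2) : ℝ) := Real.rpow_pos_of_pos hk'0 _
    have h2 : 0 < C ^ (3 / 5 : ℝ) := Real.rpow_pos_of_pos hC _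
    positivity
  have hpint : ∀ c : ℝ, c < 1 → IntegrableOn (fun t => (T - t) ^ (-c)) (Ioo 0 T) := by
    intro c hc
    have h1 : IntervalIntegrable (fun x : ℝ => x ^ (-c)) volume (T - 0) (T - T) :=
      intervalIntegral.intervalIntegrable_rpow' (by linarith)
    have h2 := h1.comp_sub_left T
    rw [sub_sub_cancel, sub_sub_cancel] at h2
    exact (intervalIntegrable_iff_integrableOn_Ioo_of_le hT.le).1 h2
  refine gen_bkm h (β := fun t => D * (T - t) ^ (-θ))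
    (Λ := fun t => B + (T - t) ^ (-(1 / 2) : ℝ)) ?_ ((hpint θ hθ1).const_mul D) ?_ ?_ ?_
  · intro t ht
    have : 0 ≤ (T - t) ^ (-θ) := Real.rpow_nonneg (by linarith [ht.2]) _
    positivity
  · intro s hs t ht hst
    have : (T - s) ^ (-(1 / 2) : ℝ) ≤ (T - t) ^ (-(1 / 2) : ℝ) :=
      Real.rpow_le_rpow_of_nonpos (by linarith [ht.2]) (by linarith) (by norm_num)
    simp only
    linarith
  · refine Integrable.add (integrableOn_const (by simp)) ?_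
    exact hpint (1 / 2) (by norm_num)
  · refine Filter.Eventually.of_forall fun t htI => ?_
    rcases lt_or_ge t t₀ with hlt | hge
    · obtain ⟨x, hx⟩ := exists_isMaxPt h.sol ⟨htI.1.le, htI.2⟩
      refine ⟨x, hx, fun h1 => ?_⟩
      exfalso
      have h2 := hB t ⟨htI.1.le, hlt.le⟩
      have h3 := le_vmax h.sol ⟨htI.1.le, htI.2⟩ x
      have h4 : 0 ≤ (T - t) ^ (-(1 / 2) : ℝ) := Real.rpow_nonneg (by linarith [htI.2]) _
      linarith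
    · obtain ⟨⟨hMt, x, hx, hx2⟩, ht1⟩ := hP t ⟨hge, htI.2⟩
      refine ⟨x, hx, fun h1 => ?_⟩
      have hε : 0 < T - t := by linarith [htI.2]
      have h4 : 0 ≤ (T - t) ^ (-(1 / 2) : ℝ) := Real.rpow_nonneg hε.le _
      obtain ⟨ρ, hρk, hTw⟩ := hx2 (by linarith)
      have hMx : 0 < nrm (vort (u t) x) := by linarith
      -- the radius
      set r : ℝ := k' * (T - t) ^ g with hr
      have hεg : 0 < (T - t) ^ g := Real.rpow_pos_of_pos hε _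
      have hr0 : 0 < r := by positivity
      have hrρ : r ≤ ρ :=
        le_trans (mul_le_mul_of_nonneg_right (min_le_left _ _) hεg.le) hρk
      have hrπ : r ≤ Real.pi := by
        have e1 : (T - t) ^ g ≤ 1 := Real.rpow_le_one hε.le ht1 hg0
        calc r ≤ k' * 1 := mul_le_mul_of_nonneg_left e1 hk'0.le
          _ ≤ Real.pi := by rw [mul_one]; exact min_le_right _ _
      have h5 := rate_at_max h htI hx hr0 hrπ ha ha1 hMx hE0 hEu (Tw_mono hr0 hrρ hTw)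
      refine h5.trans (mul_le_mul_of_nonneg_right ?_ (Wq_nonneg t x))
      have hM' : nrm (vort (u t) x) ≤ C * (T - t) ^ (-m) :=
        (le_vmax h.sol ⟨htI.1.le, htI.2⟩ x).trans hMt
      -- exponents
      have p1 : r ^ (-(5 / 2) : ℝ) ≤ k' ^ (-(5 / 2) : ℝ) * (T - t) ^ (-θ) := by
        rw [hr, Real.mul_rpow hk'0.le hεg.le, ← Real.rpow_mul hε.le]
        refine mul_le_mul_of_nonneg_left ?_ (Real.rpow_nonneg hk'0.le _)
        exact Real.rpow_le_rpow_of_exponent_ge hε ht1 (by linarith)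
      have hE25 : E ^ (2 / 5 : ℝ) ≤ E := by
        calc E ^ (2 / 5 : ℝ) ≤ E ^ (1 : ℝ) :=
              Real.rpow_le_rpow_of_exponent_le hE1 (by norm_num)
          _ = E := Real.rpow_one E
      have q1 : r⁻¹ = k'⁻¹ * (T - t) ^ (-g) := by
        rw [hr, mul_inv, Real.rpow_neg hε.le]
      have q2 : nrm (vort (u t) x) ^ (3 / 5 : ℝ)
          ≤ C ^ (3 / 5 : ℝ) * (T - t) ^ (-(3 / 5 * m)) := by
        calc nrm (vort (u t) x) ^ (3 / 5 : ℝ) ≤ (C * (T - t) ^ (-m)) ^ (3 / 5 : ℝ) :=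
              Real.rpow_le_rpow hMx.le hM' (by norm_num)
          _ = C ^ (3 / 5 : ℝ) * (T - t) ^ (-(3 / 5 * m)) := by
              rw [Real.mul_rpow hC.le (Real.rpow_nonneg hε.le _), ← Real.rpow_mul hε.le]
              congr 2
              ring
      have hC35 : 0 < C ^ (3 / 5 : ℝ) := Real.rpow_pos_of_pos hC _
      have q3 : (T - t) ^ (-g) * (T - t) ^ (-(3 / 5 * m)) ≤ (T - t) ^ (-θ) := by
        rw [← Real.rpow_add hε]
        exact Real.rpow_le_rpow_of_exponent_ge hε ht1 (by linarith)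
      have p2 : r⁻¹ * (E ^ (2 / 5 : ℝ) * nrm (vort (u t) x) ^ (3 / 5 : ℝ))
          ≤ E * (k'⁻¹ * C ^ (3 / 5 : ℝ)) * (T - t) ^ (-θ) := by
        have e0 : 0 ≤ nrm (vort (u t) x) ^ (3 / 5 : ℝ) := Real.rpow_nonneg hMx.le _
        have e1 : 0 < (T - t) ^ (-g) := Real.rpow_pos_of_pos hε _
        calc r⁻¹ * (E ^ (2 / 5 : ℝ) * nrm (vort (u t) x) ^ (3 / 5 : ℝ))
            ≤ r⁻¹ * (E * (C ^ (3 / 5 : ℝ) * (T - t) ^ (-(3 / 5 * m)))) := by gcongr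
          _ = E * (k'⁻¹ * C ^ (3 / 5 : ℝ)) * ((T - t) ^ (-g) * (T - t) ^ (-(3 / 5 * m))) := by
              rw [q1]; ring
          _ ≤ _ := mul_le_mul_of_nonneg_left q3 (by positivity)
      have p3 : E * r ^ (-(5 / 2) : ℝ) ≤ E * (k' ^ (-(5 / 2) : ℝ)) * (T - t) ^ (-θ) := by
        rw [mul_assoc]
        exact mul_le_mul_of_nonneg_left p1 hE0.le
      calc Ken / a * (E * r ^ (-(5 / 2) : ℝ)
            + r⁻¹ * (E ^ (2 / 5 : ℝ) * nrm (vort (u t) x) ^ (3 / 5 : ℝ)))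
          ≤ Ken / a * (E * (k' ^ (-(5 / 2) : ℝ)) * (T - t) ^ (-θ)
            + E * (k'⁻¹ * C ^ (3 / 5 : ℝ)) * (T - t) ^ (-θ)) :=
            mul_le_mul_of_nonneg_left (add_le_add p3 p2) (by positivity)
        _ = D * (T - t) ^ (-θ) := by rw [hD]; ring

/-- **The Type I threshold.** -/
theorem type_one_energy (h : IsC2Solution T u p) {a : ℝ} (ha : 0 < a) (ha1 : a ≤ 1)
    {C E L : ℝ} (hC : 1 ≤ C) (hE0 : 0 < E) (hEu : En u 0 ≤ E ^ 2)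
    (hL1 : 1 ≤ L) (hL : 4 * (Ken / a) * C ^ (3 / 5 : ℝ) ≤ L)
    (hT : 0 < T) (hM : ∀ᶠ t in 𝓝[<] T, vmax (u t) ≤ C / (T - t))
    (hyp : ∀ᶠ t in 𝓝[<] T, ∃ x, IsMaxPt u t x ∧
      (1 / Real.sqrt (T - t) < nrm (vort (u t) x) →
        Tw (u t) x (dirv (u t) x) (L * (E * (T - t)) ^ (2 / 5 : ℝ)) a)) :
    (∃ C : ℝ, ∀ᶠ t in 𝓝[<] T, ∀ x, nrm (vort (u t) x) ≤ C / Real.sqrt (T - t)) ∧
    BKMFinite T u := by
  have hK := Ken_pos
  have hL0 : 0 < L := by linarith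
  have hC0 : 0 < C := by linarith
  -- eventually the radius is at most π
  have hrad : ∀ᶠ t in 𝓝[<] T, L * (E * (T - t)) ^ (2 / 5 : ℝ) ≤ Real.pi := by
    have hc : ContinuousAt (fun t : ℝ => L * (E * (T - t)) ^ (2 / 5 : ℝ)) T := by
      refine continuousAt_const.mul (ContinuousAt.rpow_const (by fun_prop) (Or.inr (by norm_num)))
    have h0 : L * (E * (T - T)) ^ (2 / 5 : ℝ) < Real.pi := by
      rw [sub_self, mul_zero, Real.zero_rpow (by norm_num), mul_zero]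
      exact Real.pi_pos
    have h1 : ∀ᶠ t in 𝓝 T, L * (E * (T - t)) ^ (2 / 5 : ℝ) < Real.pi :=
      hc.eventually_lt continuousAt_const h0
    filter_upwards [nhdsWithin_le_nhds h1] with t ht
    exact ht.le
  obtain ⟨t₀, ht₀, hP⟩ : ∃ t₀ ∈ Ioo 0 T, ∀ t ∈ Ico t₀ T, (vmax (u t) ≤ C / (T - t) ∧
      ∃ x, IsMaxPt u t x ∧ (1 / Real.sqrt (T - t) < nrm (vort (u t) x) →
        Tw (u t) x (dirv (u t) x) (L * (E * (T - t)) ^ (2 / 5 : ℝ)) a)) ∧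
      L * (E * (T - t)) ^ (2 / 5 : ℝ) ≤ Real.pi := by
    have h1 := (hM.and hyp).and hrad
    rw [eventually_nhdsWithin_iff, Metric.eventually_nhds_iff] at h1
    obtain ⟨δ, hδ, h2⟩ := h1
    refine ⟨T - min (δ / 2) (T / 2), ⟨?_, ?_⟩, fun t ht => h2 ?_ ht.2⟩
    · have : min (δ / 2) (T / 2) ≤ T / 2 := min_le_right _ _
      linarith
    · have : 0 < min (δ / 2) (T / 2) := by positivity
      linarith
    · rw [Real.dist_eq, abs_lt]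
      have : min (δ / 2) (T / 2) ≤ δ / 2 := min_le_left _ _
      constructor
      · linarith [ht.1]
      · linarith [ht.2]
  refine type_one_gen h ht₀ fun t ht => ?_
  obtain ⟨⟨hMt, x, hx, hx2⟩, hπ⟩ := hP t ht
  refine ⟨x, hx, fun h1 => ?_⟩
  have htI : t ∈ Ioo 0 T := ⟨ht₀.1.trans_le ht.1, ht.2⟩
  have hε : 0 < T - t := by linarith [htI.2]
  have hMx : 0 < nrm (vort (u t) x) := by
    refine lt_trans ?_ h1
    have := Real.sqrt_pos.2 hε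
    positivity
  have hEε : 0 < (E * (T - t)) ^ (2 / 5 : ℝ) := Real.rpow_pos_of_pos (by positivity) _
  have hr0 : 0 < L * (E * (T - t)) ^ (2 / 5 : ℝ) := by positivity
  have h5 := rate_at_max h htI hx hr0 hπ ha ha1 hMx hE0 hEu (hx2 h1)
  refine h5.trans (mul_le_mul_of_nonneg_right ?_ (Wq_nonneg t x))
  have hM' : nrm (vort (u t) x) ≤ C / (T - t) :=
    (le_vmax h.sol ⟨htI.1.le, htI.2⟩ x).trans hMt
  -- first term
  have p1 : E * (L * (E * (T - t)) ^ (2 / 5 : ℝ)) ^ (-(5 / 2) : ℝ)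
      = L ^ (-(5 / 2) : ℝ) * (T - t)⁻¹ := by
    rw [Real.mul_rpow hL0.le hEε.le, ← Real.rpow_mul (by positivity)]
    rw [show (2 / 5 : ℝ) * -(5 / 2) = -1 by norm_num, Real.rpow_neg_one, mul_inv]
    field_simp
  have p1' : L ^ (-(5 / 2) : ℝ) ≤ L⁻¹ := by
    calc L ^ (-(5 / 2) : ℝ) ≤ L ^ (-1 : ℝ) :=
          Real.rpow_le_rpow_of_exponent_le hL1 (by norm_num)
      _ = L⁻¹ := Real.rpow_neg_one L
  have hC35 : 1 ≤ C ^ (3 / 5 : ℝ) := Real.one_le_rpow hC (by norm_num)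
  have p2 : (L * (E * (T - t)) ^ (2 / 5 : ℝ))⁻¹
      * (E ^ (2 / 5 : ℝ) * nrm (vort (u t) x) ^ (3 / 5 : ℝ))
      ≤ L⁻¹ * C ^ (3 / 5 : ℝ) * (T - t)⁻¹ := by
    have e1 : nrm (vort (u t) x) ^ (3 / 5 : ℝ) ≤ C ^ (3 / 5 : ℝ) * (T - t) ^ (-(3 / 5) : ℝ) := by
      calc nrm (vort (u t) x) ^ (3 / 5 : ℝ) ≤ (C / (T - t)) ^ (3 / 5 : ℝ) :=
            Real.rpow_le_rpow hMx.le hM' (by norm_num)
        _ = _ := by
            rw [Real.div_rpow hC0.le hε.le, Real.rpow_neg hε.le, div_eq_mul_inv]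
    have e2 : (L * (E * (T - t)) ^ (2 / 5 : ℝ))⁻¹
        = L⁻¹ * (E ^ (2 / 5 : ℝ))⁻¹ * (T - t) ^ (-(2 / 5) : ℝ) := by
      rw [Real.mul_rpow hE0.le hε.le, mul_inv, mul_inv, Real.rpow_neg hε.le, mul_assoc]
    have e3 : 0 < E ^ (2 / 5 : ℝ) := Real.rpow_pos_of_pos hE0 _
    have e4 : (T - t) ^ (-(2 / 5) : ℝ) * (T - t) ^ (-(3 / 5) : ℝ) = (T - t)⁻¹ := by
      rw [← Real.rpow_add hε]
      norm_num
      exact Real.rpow_neg_one _
    have e5 : 0 < (T - t) ^ (-(2 / 5) : ℝ) := Real.rpow_pos_of_pos hε _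
    calc (L * (E * (T - t)) ^ (2 / 5 : ℝ))⁻¹
          * (E ^ (2 / 5 : ℝ) * nrm (vort (u t) x) ^ (3 / 5 : ℝ))
        ≤ (L * (E * (T - t)) ^ (2 / 5 : ℝ))⁻¹
          * (E ^ (2 / 5 : ℝ) * (C ^ (3 / 5 : ℝ) * (T - t) ^ (-(3 / 5) : ℝ))) := by gcongr
      _ = L⁻¹ * C ^ (3 / 5 : ℝ) * ((E ^ (2 / 5 : ℝ))⁻¹ * E ^ (2 / 5 : ℝ))
          * ((T - t) ^ (-(2 / 5) : ℝ) * (T - t) ^ (-(3 / 5) : ℝ)) := by rw [e2]; ring
      _ = _ := by rw [inv_mul_cancel₀ e3.ne', mul_one, e4]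
  have hεi : 0 < (T - t)⁻¹ := inv_pos.2 hε
  have hLi : 0 < L⁻¹ := inv_pos.2 hL0
  have hfin : 2 * (Ken / a) * (L⁻¹ * C ^ (3 / 5 : ℝ)) ≤ 1 / 2 := by
    have e1 : 4 * (Ken / a) * C ^ (3 / 5 : ℝ) * L⁻¹ ≤ L * L⁻¹ :=
      mul_le_mul_of_nonneg_right hL hLi.le
    rw [mul_inv_cancel₀ hL0.ne'] at e1
    linarith
  calc Ken / a * (E * (L * (E * (T - t)) ^ (2 / 5 : ℝ)) ^ (-(5 / 2) : ℝ)
        + (L * (E * (T - t)) ^ (2 / 5 : ℝ))⁻¹
          * (E ^ (2 / 5 : ℝ) * nrm (vort (u t) x) ^ (3 / 5 : ℝ)))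
      ≤ Ken / a * (L⁻¹ * C ^ (3 / 5 : ℝ) * (T - t)⁻¹ + L⁻¹ * C ^ (3 / 5 : ℝ) * (T - t)⁻¹) := by
        refine mul_le_mul_of_nonneg_left (add_le_add ?_ p2) (by positivity)
        rw [p1]
        refine mul_le_mul_of_nonneg_right ?_ hεi.le
        calc L ^ (-(5 / 2) : ℝ) ≤ L⁻¹ * 1 := by rw [mul_one]; exact p1'
          _ ≤ L⁻¹ * C ^ (3 / 5 : ℝ) := mul_le_mul_of_nonneg_left hC35 hLi.le
    _ = 2 * (Ken / a) * (L⁻¹ * C ^ (3 / 5 : ℝ)) * (T - t)⁻¹ := by ring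
    _ ≤ 1 / 2 * (T - t)⁻¹ := mul_le_mul_of_nonneg_right hfin hεi.le
    _ = 1 / (2 * (T - t)) := by rw [one_div, one_div, mul_inv]

end Q177.OS
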