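import Pool.Agent.Q177.OS.Loc

/-!
# The stretching rate bounded by the energy
-/

set_option autoImplicit false

open MeasureTheory Set Topology Filter
open scoped NNReal ENNReal Pointwise

namespace Q177.OS

open Pool.Agent.H708R2.EulerSign Pool.Agent.H708R2.EulerTypeI
open Pool.Agent.W786.Dir Pool.Agent.W786.Max Q177.EF

variable {v : V → V} {x₀ e : V}

/-- The open unit ball. -/
def Bs : Set V := {z | z ⬝ᵥ z < 1}

lemma Bs_open : IsOpen Bs := by
  have : Continuous fun z : V => z ⬝ᵥ z := by simp only [dotProduct]; fun_prop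
  exact isOpen_lt this continuous_const

lemma Bs_sub {z : V} (hz : z ∈ Bs) (i : Fin 3) : |z i| < 1 :=
  (abs_le_nrm z i).trans_lt (nrm_lt_one hz)

lemma Bs_vol : volume Bs ≠ ∞ := by
  have h1 : Bs ⊆ Metric.closedBall (0 : V) 1 := by
    intro z hz
    rw [mem_closedBall_zero_iff]
    exact (pi_norm_le_iff_of_nonneg zero_le_one).2 fun i => (Bs_sub hz i).le
  exact ((measure_mono h1).trans_lt (isCompact_closedBall (0 : V) 1).measure_lt_top).ne

/-- The constant. -/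
noncomputable def cB : ℝ := Real.sqrt (volume Bs).toReal

lemma cB_nonneg : 0 ≤ cB := Real.sqrt_nonneg _

lemma N_energy (hv : Continuous v) (hper : Periodic3 v) {r E : ℝ} (hr : 0 < r)
    (hrπ : r ≤ Real.pi) (hE : 0 ≤ E) (hEv : ∫ x in Dom, nrm (v x) ^ 2 ≤ E ^ 2) :
    N v x₀ 0 r ≤ cB * (E * r ^ (-(3 / 2) : ℝ)) := by
  set h : V → ℝ := fun y => nrm (v y) ^ 2 with hh
  have hhc : Continuous h := (nrm_cont.comp hv).pow 2
  have hhp : Periodic3 h := fun i x => by simp only [hh]; rw [hper]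
  set C : Set V := cell (fun i => x₀ i - Real.pi) with hC
  set F : V → ℝ := indicator C h with hF
  have hFi : Integrable F := (integrable_indicator_iff (cell_meas _)).2
    (per_intOn hhp hhc (subset_refl C))
  have hFint : ∫ y, F y ≤ E ^ 2 := by
    rw [integral_indicator (cell_meas _), integral_cell hhp]
    exact hEv
  have hsub : ∀ z ∈ Bs, x₀ + r • z ∈ C := by
    intro z hz i
    have h1 := abs_lt.1 (Bs_sub hz i)
    have h2 : (x₀ + r • z) i = x₀ i + r * z i := rfl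
    rw [h2]
    have h3 := Real.pi_pos
    constructor
    · nlinarith [h1.1]
    · nlinarith [h1.2]
  have hFr : Integrable fun z => F (x₀ + r • z) := by
    have h1 : Integrable fun w => F (x₀ + w) := hFi.comp_add_left x₀
    exact h1.comp_smul hr.ne'
  have hval : ∫ z, F (x₀ + r • z) = (r ^ 3)⁻¹ * ∫ y, F y := by
    have h1 := Measure.integral_comp_smul_of_nonneg (μ := (volume : Measure V))
      (fun w => F (x₀ + w)) r (hR := hr.le)
    have h2 : Module.finrank ℝ V = 3 := by simp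
    rw [h2] at h1
    rw [h1, integral_add_left_eq_self F x₀, smul_eq_mul]
  -- the square integral over the ball
  have hcv : Continuous fun z => nrm (v (x₀ + r • z)) := nrm_cont.comp (hv.comp (by fun_prop))
  have i1 : IntegrableOn (fun z => nrm (v (x₀ + r • z))) Bs := by
    have h1 : Bs ⊆ Metric.closedBall (0 : V) 1 := by
      intro z hz
      rw [mem_closedBall_zero_iff]
      exact (pi_norm_le_iff_of_nonneg zero_le_one).2 fun i => (Bs_sub hz i).le
    exact (hcv.continuousOn.integrableOn_compact (isCompact_closedBall (0 : V) 1)).mono_set h1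
  have i2 : IntegrableOn (fun z => nrm (v (x₀ + r • z)) ^ 2) Bs := by
    have h1 : Bs ⊆ Metric.closedBall (0 : V) 1 := by
      intro z hz
      rw [mem_closedBall_zero_iff]
      exact (pi_norm_le_iff_of_nonneg zero_le_one).2 fun i => (Bs_sub hz i).le
    exact ((hcv.pow 2).continuousOn.integrableOn_compact
      (isCompact_closedBall (0 : V) 1)).mono_set h1
  have hr32 : 0 < r ^ (-(3 / 2) : ℝ) := Real.rpow_pos_of_pos hr _
  have hsq : (r ^ (-(3 / 2) : ℝ)) ^ 2 = (r ^ 3)⁻¹ := by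
    rw [← Real.rpow_natCast, ← Real.rpow_mul hr.le]
    have : (-(3 / 2) : ℝ) * (2 : ℕ) = -((3 : ℕ) : ℝ) := by norm_num
    rw [this, Real.rpow_neg hr.le, Real.rpow_natCast]
  have hint2 : ∫ z in Bs, nrm (v (x₀ + r • z)) ^ 2 ≤ (E * r ^ (-(3 / 2) : ℝ)) ^ 2 := by
    have h1 : ∫ z in Bs, nrm (v (x₀ + r • z)) ^ 2 ≤ ∫ z, F (x₀ + r • z) := by
      rw [← integral_indicator Bs_open.measurableSet]
      refine integral_mono ((integrable_indicator_iff Bs_open.measurableSet).2 i2) hFr fun z => ?_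
      by_cases hz : z ∈ Bs
      · simp only [indicator_of_mem hz, hF, indicator_of_mem (hsub z hz), hh]
        exact le_rfl
      · simp only [indicator_of_notMem hz]
        exact indicator_nonneg (fun y _ => sq_nonneg _) _
    refine h1.trans ?_
    rw [hval, mul_pow, hsq, mul_comm]
    exact mul_le_mul_of_nonneg_right hFint (by positivity)
  have key := cs_set (C := E * r ^ (-(3 / 2) : ℝ)) (by positivity) Bs_vol i1 i2 hint2
  have h1 : N v x₀ 0 r ≤ ∫ z in Bs, nrm (v (x₀ + r • z)) := by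
    unfold N
    rw [← integral_indicator Bs_open.measurableSet]
    refine integral_mono (N_int hv x₀ 0 r)
      ((integrable_indicator_iff Bs_open.measurableSet).2 i1) fun z => ?_
    by_cases hz : z ∈ Bs
    · have hz' : z ⬝ᵥ z < 1 := hz
      simp only [indicator_of_mem hz, sub_zero]
      refine mul_le_of_le_one_left (nrm_nonneg _) ?_
      unfold P
      rw [pow_one]
      exact max_le (by have := dot_self_nonneg z; linarith) zero_le_one
    · have hz' : 1 ≤ z ⬝ᵥ z := not_lt.1 hz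
      have e2 : P 1 z = 0 := P_zero_of hz'
      simp only [indicator_of_notMem hz, e2, zero_mul]
      exact le_rfl
  exact h1.trans key

/-- The constant of the estimate. -/
noncomputable def Ken : ℝ := (102 * cB + 6 * ∫ z, P 2 z) / ∫ z, P 3 z

lemma Ken_pos : 0 < Ken := by
  have h2 : 0 < ∫ z, P 2 z := P_int_pos 1
  have h3 : 0 < ∫ z, P 3 z := P_int_pos 2
  have h4 := cB_nonneg
  unfold Ken
  positivity

/-- **The stretching rate, by the energy.** -/
theorem rate_le (hv : ContDiff ℝ 2 v) (hper : Periodic3 v) (hdiv : ∀ x, divergence v x = 0)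
    (he : nrm e ≤ 1) {ρ a Ω E : ℝ} (hρ : 0 < ρ) (hρπ : ρ ≤ Real.pi) (ha : 0 < a) (ha1 : a ≤ 1)
    (hb : Tw v x₀ e ρ a) (hΩ : ∀ y, nrm (vort v y) ≤ Ω) (hΩ0 : 0 < Ω) (hE : 0 < E)
    (hEv : ∫ x in Dom, nrm (v x) ^ 2 ≤ E ^ 2) :
    rate v e x₀ ≤ Ken / a * (E * ρ ^ (-(5 / 2) : ℝ)
      + ρ⁻¹ * (E ^ (2 / 5 : ℝ) * Ω ^ (3 / 5 : ℝ))) := by
  have c2 : 0 < ∫ z, P 2 z := P_int_pos 1
  have c3 : 0 < ∫ z, P 3 z := P_int_pos 2
  set I2 := ∫ z, P 2 z with hI2
  set I3 := ∫ z, P 3 z with hI3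
  have hcB := cB_nonneg
  set A : ℝ → ℝ := fun r => ∫ z, P 3 z * rate v e (x₀ + r • z) with hA
  set A' : ℝ → ℝ := fun r => ∫ z, P 3 z * fderiv ℝ (rate v e) (x₀ + r • z) z with hA'
  have hAd : ∀ r, HasDerivAt A (A' r) r := fun r =>
    param_deriv (P_cont 3) (P_supp 2) (rate_contDiff hv e) x₀ r
  have hA0 : A 0 = I3 * rate v e x₀ := by
    simp only [hA, zero_smul, add_zero]
    rw [integral_mul_const]
  -- near
  have near : ∀ r, 0 < r → r ≤ ρ → -(6 / ρ * (Ω * I2)) ≤ A' r := by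
    intro r hr hrρ
    refine le_trans ?_ (dA_lower hv hdiv hρ hb hr hrρ)
    refine neg_le_neg (mul_le_mul_of_nonneg_left ?_ (by positivity))
    rw [hI2, ← integral_const_mul]
    refine integral_mono (J_cont hv 1 r) ((P_integrable 1).const_mul Ω) fun z => ?_
    show P 2 z * nrm (vort v (x₀ + r • z)) ≤ Ω * P 2 z
    rw [mul_comm]
    exact mul_le_mul_of_nonneg_right (hΩ _) (P_nonneg 2 z)
  -- far
  set D : ℝ := 144 * cB * E / (a * ρ) with hD
  have hD0 : 0 ≤ D := by positivity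
  have far : ∀ r, 0 < r → r ≤ ρ → -(D * r ^ (-(5 / 2) : ℝ)) ≤ A' r := by
    intro r hr hrρ
    refine le_trans ?_ (dA_lower hv hdiv hρ hb hr hrρ)
    refine neg_le_neg ?_
    have h1 := J_le hv he ha hb hr hrρ 0
    have h2 := N_energy (x₀ := x₀) hv.continuous hper hr (hrρ.trans hρπ) hE.le hEv
    have h3 : r ^ (-(3 / 2) : ℝ) / r = r ^ (-(5 / 2) : ℝ) := by
      rw [← Real.rpow_sub_one hr.ne']
      norm_num
    calc 6 / ρ * ∫ z, P 2 z * nrm (vort v (x₀ + r • z))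
        ≤ 6 / ρ * (24 / (a * r) * N v x₀ 0 r) := by gcongr
      _ ≤ 6 / ρ * (24 / (a * r) * (cB * (E * r ^ (-(3 / 2) : ℝ)))) := by gcongr
      _ = D * (r ^ (-(3 / 2) : ℝ) / r) := by rw [hD]; field_simp; ring
      _ = D * r ^ (-(5 / 2) : ℝ) := by rw [h3]
  have top : A ρ ≤ 6 * cB * (E * ρ ^ (-(5 / 2) : ℝ)) := by
    have h1 := (abs_le.1 (rate_avg hv he hρ x₀ 0)).2
    have h2 := N_energy (x₀ := x₀) hv.continuous hper hρ hρπ hE.le hEv
    have h3 : ρ ^ (-(3 / 2) : ℝ) / ρ = ρ ^ (-(5 / 2) : ℝ) := by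
      rw [← Real.rpow_sub_one hρ.ne']
      norm_num
    refine h1.trans ?_
    calc 6 / ρ * N v x₀ 0 ρ ≤ 6 / ρ * (cB * (E * ρ ^ (-(3 / 2) : ℝ))) := by gcongr
      _ = 6 * cB * (E * (ρ ^ (-(3 / 2) : ℝ) / ρ)) := by field_simp
      _ = _ := by rw [h3]
  set s : ℝ := (E / Ω) ^ (2 / 5 : ℝ) with hs
  have hs0 : 0 < s := Real.rpow_pos_of_pos (by positivity) _
  set q : ℝ := E ^ (2 / 5 : ℝ) * Ω ^ (3 / 5 : ℝ) with hq
  have hq0 : 0 < q := mul_pos (Real.rpow_pos_of_pos hE _) (Real.rpow_pos_of_pos hΩ0 _)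
  have hρ52 : 0 < ρ ^ (-(5 / 2) : ℝ) := Real.rpow_pos_of_pos hρ _
  have key : A 0 ≤ (6 * cB + 6 * I2) * (E * ρ ^ (-(5 / 2) : ℝ))
      + (6 * I2 + 96 * cB / a) * (ρ⁻¹ * q) := by
    rcases le_or_gt s ρ with hsρ | hsρ
    · -- `s ≤ ρ`
      have e1 : Ω * s = q := by
        rw [hs, hq, Real.div_rpow hE.le hΩ0.le]
        have : Ω = Ω ^ (3 / 5 : ℝ) * Ω ^ (2 / 5 : ℝ) := by
          rw [← Real.rpow_add hΩ0]; norm_num
        have h0 : 0 < Ω ^ (2 / 5 : ℝ) := Real.rpow_pos_of_pos hΩ0 _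
        have h5 : Ω / Ω ^ (2 / 5 : ℝ) = Ω ^ (3 / 5 : ℝ) := by
          rw [div_eq_iff h0.ne']; exact this
        calc Ω * (E ^ (2 / 5 : ℝ) / Ω ^ (2 / 5 : ℝ))
            = E ^ (2 / 5 : ℝ) * (Ω / Ω ^ (2 / 5 : ℝ)) := by ring
          _ = _ := by rw [h5]
      have e2 : E * s ^ (-(3 / 2) : ℝ) = q := by
        rw [hs, hq, ← Real.rpow_mul (by positivity), Real.div_rpow hE.le hΩ0.le]
        have h1 : (2 / 5 : ℝ) * -(3 / 2) = -(3 / 5) := by norm_num
        rw [h1, Real.rpow_neg hE.le, Real.rpow_neg hΩ0.le]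
        have h2 : E = E ^ (2 / 5 : ℝ) * E ^ (3 / 5 : ℝ) := by
          rw [← Real.rpow_add hE]; norm_num
        have h3 : 0 < E ^ (3 / 5 : ℝ) := Real.rpow_pos_of_pos hE _
        have h4 : 0 < Ω ^ (3 / 5 : ℝ) := Real.rpow_pos_of_pos hΩ0 _
        have h5 : E / E ^ (3 / 5 : ℝ) = E ^ (2 / 5 : ℝ) := by
          rw [div_eq_iff h3.ne']; exact h2
        have h6 : E * ((E ^ (3 / 5 : ℝ))⁻¹ / (Ω ^ (3 / 5 : ℝ))⁻¹)
            = E / E ^ (3 / 5 : ℝ) * Ω ^ (3 / 5 : ℝ) := by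
          rw [div_inv_eq_mul]; ring
        rw [h6, h5]
      have s1 : A 0 ≤ A s + 6 * I2 * (ρ⁻¹ * q) := by
        obtain ⟨c, hc, hc2⟩ := exists_hasDerivAt_eq_slope A A' hs0
          (fun r _ => (hAd r).continuousAt.continuousWithinAt) (fun r _ => hAd r)
        have h1 := near c hc.1 (hc.2.le.trans hsρ)
        rw [hc2, sub_zero, le_div_iff₀ hs0] at h1
        have h2 : 6 / ρ * (Ω * I2) * s = 6 * I2 * (ρ⁻¹ * q) := by
          rw [← e1]; field_simp
        linarith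
      have s2 : A s ≤ A ρ + 96 * cB / a * (ρ⁻¹ * q) := by
        rcases hsρ.lt_or_eq with hlt | heq
        · obtain ⟨c, hc, hc2⟩ := exists_ratio_hasDerivAt_eq_ratio_slope A A' hlt
            (fun r _ => (hAd r).continuousAt.continuousWithinAt) (fun r _ => hAd r)
            (fun r : ℝ => r ^ (-(3 / 2) : ℝ)) (fun r => -(3 / 2) * r ^ (-(3 / 2) - 1 : ℝ))
            (fun r hr => (Real.hasDerivAt_rpow_const
              (Or.inl (hs0.trans_le hr.1).ne')).continuousAt.continuousWithinAt)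
            (fun r hr => Real.hasDerivAt_rpow_const (Or.inl (hs0.trans hr.1).ne'))
          have hcpos : 0 < c := hs0.trans hc.1
          have e3 : (-(3 / 2) - 1 : ℝ) = -(5 / 2) := by norm_num
          rw [e3] at hc2
          have hc52 : 0 < c ^ (-(5 / 2) : ℝ) := Real.rpow_pos_of_pos hcpos _
          -- `(g ρ - g s) A'(c) = (A ρ - A s) (-(3/2) c^(-5/2))`
          have h2 := far c hcpos hc.2.le
          have hρ32 : 0 < ρ ^ (-(3 / 2) : ℝ) := Real.rpow_pos_of_pos hρ _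
          have hgs : 0 ≤ s ^ (-(3 / 2) : ℝ) - ρ ^ (-(3 / 2) : ℝ) :=
            sub_nonneg.2 (Real.rpow_le_rpow_of_nonpos hs0 hsρ (by norm_num))
          have h3 : (s ^ (-(3 / 2) : ℝ) - ρ ^ (-(3 / 2) : ℝ)) * -(D * c ^ (-(5 / 2) : ℝ))
              ≤ (s ^ (-(3 / 2) : ℝ) - ρ ^ (-(3 / 2) : ℝ)) * A' c :=
            mul_le_mul_of_nonneg_left h2 hgs
          have h4 : (s ^ (-(3 / 2) : ℝ) - ρ ^ (-(3 / 2) : ℝ)) * A' c
              = (A ρ - A s) * (3 / 2 * c ^ (-(5 / 2) : ℝ)) := by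
            linear_combination -hc2
          rw [h4] at h3
          have h5 : (A s - A ρ) * c ^ (-(5 / 2) : ℝ)
              ≤ (2 / 3 * D * (s ^ (-(3 / 2) : ℝ) - ρ ^ (-(3 / 2) : ℝ))) * c ^ (-(5 / 2) : ℝ) := by
            nlinarith
          have h6 := le_of_mul_le_mul_right h5 hc52
          have h7 : 2 / 3 * D * (s ^ (-(3 / 2) : ℝ) - ρ ^ (-(3 / 2) : ℝ))
              ≤ 2 / 3 * D * s ^ (-(3 / 2) : ℝ) := by
            have : s ^ (-(3 / 2) : ℝ) - ρ ^ (-(3 / 2) : ℝ) ≤ s ^ (-(3 / 2) : ℝ) := by linarith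
            exact mul_le_mul_of_nonneg_left this (by positivity)
          have h8 : 2 / 3 * D * s ^ (-(3 / 2) : ℝ) = 96 * cB / a * (ρ⁻¹ * q) := by
            rw [← e2, hD]; field_simp; ring
          linarith
        · rw [heq]
          have : 0 ≤ 96 * cB / a * (ρ⁻¹ * q) := by positivity
          linarith
      have h9 : 0 ≤ 6 * I2 * (E * ρ ^ (-(5 / 2) : ℝ)) := by positivity
      linarith
    · -- `ρ < s`
      have e4 : Ω ≤ E * ρ ^ (-(5 / 2) : ℝ) := by
        have h1 : ρ ^ (5 / 2 : ℝ) ≤ E / Ω := by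
          have h2 : ρ ^ (5 / 2 : ℝ) ≤ s ^ (5 / 2 : ℝ) :=
            Real.rpow_le_rpow hρ.le hsρ.le (by norm_num)
          rw [hs, ← Real.rpow_mul (by positivity)] at h2
          norm_num at h2
          exact h2
        rw [le_div_iff₀ hΩ0] at h1
        rw [Real.rpow_neg hρ.le, ← div_eq_mul_inv, le_div_iff₀ (Real.rpow_pos_of_pos hρ _)]
        linarith
      obtain ⟨c, hc, hc2⟩ := exists_hasDerivAt_eq_slope A A' hρ
          (fun r _ => (hAd r).continuousAt.continuousWithinAt) (fun r _ => hAd r)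
      have h1 := near c hc.1 hc.2.le
      rw [hc2, sub_zero, le_div_iff₀ hρ] at h1
      have h2 : 6 / ρ * (Ω * I2) * ρ = 6 * I2 * Ω := by field_simp
      have h3 : 6 * I2 * Ω ≤ 6 * I2 * (E * ρ ^ (-(5 / 2) : ℝ)) := by gcongr
      have h4 : 0 ≤ (6 * I2 + 96 * cB / a) * (ρ⁻¹ * q) := by positivity
      linarith
  rw [hA0] at key
  have h1 : (6 * cB + 6 * I2) * (E * ρ ^ (-(5 / 2) : ℝ))
      + (6 * I2 + 96 * cB / a) * (ρ⁻¹ * q)
      ≤ (102 * cB + 6 * I2) / a * (E * ρ ^ (-(5 / 2) : ℝ) + ρ⁻¹ * q) := by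
    have h2 : 6 * cB + 6 * I2 ≤ (102 * cB + 6 * I2) / a := by
      rw [le_div_iff₀ ha]; nlinarith
    have h3 : 6 * I2 + 96 * cB / a ≤ (102 * cB + 6 * I2) / a := by
      rw [le_div_iff₀ ha, add_mul, div_mul_cancel₀ _ ha.ne']
      nlinarith
    have h4 : 0 ≤ E * ρ ^ (-(5 / 2) : ℝ) := by positivity
    have h5 : 0 ≤ ρ⁻¹ * q := by positivity
    rw [mul_add]
    exact add_le_add (mul_le_mul_of_nonneg_right h2 h4) (mul_le_mul_of_nonneg_right h3 h5)
  have h2 := key.trans h1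
  have h3 : rate v e x₀ ≤ ((102 * cB + 6 * I2) / a * (E * ρ ^ (-(5 / 2) : ℝ) + ρ⁻¹ * q)) / I3 := by
    rw [le_div_iff₀ c3]; linarith
  refine h3.trans (le_of_eq ?_)
  unfold Ken
  rw [← hI2, ← hI3]
  field_simp

end Q177.OS
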