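import Pool.Agent.Q177.OS.Ener

/-!
# Evolution of the maximal vorticity
-/

set_option autoImplicit false

open MeasureTheory Set Topology Filter
open scoped NNReal ENNReal Pointwise

namespace Q177.OS

open Pool.Agent.H708R2.EulerSign Pool.Agent.H708R2.EulerTypeI
open Pool.Agent.W786.Dir Pool.Agent.W786.Max Q177.EF

variable {T : ℝ} {u : ℝ → V → V} {p : ℝ → V → ℝ}

/-- The criterion with an integrable bound of the rate at one maximum point. -/
theorem gen_bound (h : IsC2Solution T u p) {β Λ : ℝ → ℝ} (hβ0 : ∀ t ∈ Ioo 0 T, 0 ≤ β t)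
    (hβi : IntegrableOn β (Ioo 0 T)) (hΛ : MonotoneOn Λ (Ioo 0 T))
    (hyp : ∀ᵐ t, t ∈ Ioo 0 T → ∃ x, IsMaxPt u t x ∧
      (Λ t < nrm (vort (u t) x) → Pq u t x ≤ β t * Wq u t x))
    {W : ℝ} (hW : ∀ x, nrm (vort (u 0) x) ≤ W) :
    ∀ t ∈ Ioo 0 T, ∀ x,
      nrm (vort (u t) x) ≤ max W (Λ t) * Real.exp (∫ s in Ioo 0 t, β s) := by
  intro b hb x
  have hW0 : 0 ≤ W := (nrm_nonneg _).trans (hW 0)
  have hm0 : 0 ≤ max W (Λ b) := hW0.trans (le_max_left _ _)
  have hβb : IntegrableOn β (Icc 0 b) := by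
    have : IntegrableOn β (Ioo 0 b) := hβi.mono_set (Ioo_subset_Ioo_right hb.2.le)
    rwa [integrableOn_Icc_iff_integrableOn_Ioo]
  -- replace `β` by `0` outside the open interval
  set β' : ℝ → ℝ := fun t => if t ∈ Ioo 0 T then β t else 0 with hβ'
  have hβ'0 : ∀ t, 0 ≤ β' t := by
    intro t
    simp only [hβ']
    split_ifs with ht
    · exact hβ0 t ht
    · exact le_rfl
  have hae : ∀ s ∈ Icc 0 b, ∀ t ∈ Icc 0 b, s ≤ t →
      ∫ r in s..t, β' r = ∫ r in s..t, β r := by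
    intro s hs t ht hst
    rw [intervalIntegral.integral_of_le hst,
      intervalIntegral.integral_of_le hst, integral_Ioc_eq_integral_Ioo,
      integral_Ioc_eq_integral_Ioo]
    refine setIntegral_congr_fun measurableSet_Ioo fun r hr => ?_
    have : r ∈ Ioo 0 T := ⟨hs.1.trans_lt hr.1, hr.2.trans_le (ht.2.trans hb.2.le)⟩
    simp only [hβ', if_pos this]
  have hβ'i : IntegrableOn β' (Icc 0 b) := by
    rw [integrableOn_Icc_iff_integrableOn_Ioo] at hβb ⊢
    refine hβb.congr_fun (fun r hr => ?_) measurableSet_Ioo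
    have : r ∈ Ioo 0 T := ⟨hr.1, hr.2.trans hb.2⟩
    simp only [hβ', if_pos this]
  have hii : ∀ s ∈ Icc 0 b, IntervalIntegrable β' volume 0 s := fun s hs =>
    (intervalIntegrable_iff_integrableOn_Icc_of_le hs.1).2
      (hβ'i.mono_set (Icc_subset_Icc_right hs.2))
  have hconv : ∫ s in Ioo 0 b, β s = ∫ s in (0 : ℝ)..b, β' s := by
    rw [hae 0 ⟨le_rfl, hb.1.le⟩ b ⟨hb.1.le, le_rfl⟩ hb.1.le, intervalIntegral.integral_of_le hb.1.le,
      integral_Ioc_eq_integral_Ioo]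
  rw [hconv]
  refine comp_max h le_rfl hb.1.le hb.2 (ρ := β')
    (G := fun t => max W (Λ b) * Real.exp (∫ s in (0 : ℝ)..t, β' s)) ?_ hβ'i
    (fun t _ => hβ'0 t) ?_ ?_ ?_ x
  · have h1 : ContinuousOn (fun t => ∫ s in (0 : ℝ)..t, β' s) (Icc 0 b) := by
      have := intervalIntegral.continuousOn_primitive_interval (f := β') (a := 0) (b := b)
        (by rwa [uIcc_of_le hb.1.le])
      rwa [uIcc_of_le hb.1.le] at this
    exact continuousOn_const.mul (Real.continuous_exp.comp_continuousOn h1)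
  · intro s hs
    have h1 : (∫ r in (0 : ℝ)..s, β' r) + ∫ r in s..b, β' r = ∫ r in (0 : ℝ)..b, β' r :=
      intervalIntegral.integral_add_adjacent_intervals (hii s hs)
        ((hii s hs).symm.trans (hii b ⟨hb.1.le, le_rfl⟩))
    rw [mul_assoc, ← Real.exp_add, h1]
  · intro y
    simp only [intervalIntegral.integral_same, Real.exp_zero, mul_one]
    exact (hW y).trans (le_max_left _ _)
  · filter_upwards [hyp] with t ht htI
    have htT : t ∈ Ioo 0 T := ⟨htI.1, htI.2.trans hb.2⟩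
    obtain ⟨y, hy, hy2⟩ := ht htT
    refine ⟨y, hy, fun hlt => ?_⟩
    have h1 : Λ t ≤ Λ b := hΛ htT hb htI.2.le
    have h2 : 0 ≤ ∫ s in (0 : ℝ)..t, β' s :=
      intervalIntegral.integral_nonneg htI.1.le fun s _ => hβ'0 s
    have h3 : 1 ≤ Real.exp (∫ s in (0 : ℝ)..t, β' s) := Real.one_le_exp h2
    have h4 : Λ t < nrm (vort (u t) y) := lt_of_le_of_lt (by
      calc Λ t ≤ max W (Λ b) := h1.trans (le_max_right _ _)
        _ ≤ max W (Λ b) * Real.exp (∫ s in (0 : ℝ)..t, β' s) := le_mul_of_one_le_right hm0 h3) hlt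
    have h5 := hy2 h4
    simp only [hβ', if_pos htT]
    exact h5

/-- Finiteness of the Beale-Kato-Majda integral. -/
theorem gen_bkm (h : IsC2Solution T u p) {β Λ : ℝ → ℝ} (hβ0 : ∀ t ∈ Ioo 0 T, 0 ≤ β t)
    (hβi : IntegrableOn β (Ioo 0 T)) (hΛ : MonotoneOn Λ (Ioo 0 T))
    (hΛi : IntegrableOn Λ (Ioo 0 T))
    (hyp : ∀ᵐ t, t ∈ Ioo 0 T → ∃ x, IsMaxPt u t x ∧
      (Λ t < nrm (vort (u t) x) → Pq u t x ≤ β t * Wq u t x)) :
    BKMFinite T u := by
  unfold BKMFinite
  rcases le_or_gt T 0 with hT | hT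
  · rw [Ioo_eq_empty (not_lt.2 hT)]
    simp
  obtain ⟨W, hW0, hW⟩ := vort_bound h.sol (b := 0) hT
  have hb := gen_bound h hβ0 hβi hΛ hyp (fun x => (hW 0 ⟨le_rfl, le_rfl⟩ x).1)
  set E := Real.exp (∫ s in Ioo 0 T, β s) with hE
  have hEt : ∀ t ∈ Ioo 0 T, Real.exp (∫ s in Ioo 0 t, β s) ≤ E := by
    intro t ht
    refine Real.exp_le_exp.2 ?_
    refine setIntegral_mono_set hβi ?_ (Ioo_subset_Ioo_right ht.2.le).eventuallyLE
    exact (ae_restrict_iff' measurableSet_Ioo).2 (Eventually.of_forall fun s hs => hβ0 s hs)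
  have h1 : ∫⁻ t in Ioo 0 T, ⨆ x, ENNReal.ofReal (nrm (vort (u t) x))
      ≤ ∫⁻ t in Ioo 0 T, ENNReal.ofReal ((W + |Λ t|) * E) := by
    refine setLIntegral_mono' measurableSet_Ioo fun t ht => ?_
    refine iSup_le fun x => ENNReal.ofReal_le_ofReal ((hb t ht x).trans ?_)
    have h2 : max W (Λ t) ≤ W + |Λ t| :=
      max_le (by have := abs_nonneg (Λ t); linarith) (by have := le_abs_self (Λ t); linarith)
    have h3 := hEt t ht
    have h4 := abs_nonneg (Λ t)
    gcongr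
  refine h1.trans_lt ?_
  have h2 : IntegrableOn (fun t => (W + |Λ t|) * E) (Ioo 0 T) := by
    refine Integrable.mul_const ?_ E
    refine Integrable.add ?_ hΛi.abs
    exact integrableOn_const (by simp)
  exact h2.lintegral_lt_top


/-- The rate `1 / (2 (T - t))` at one maximum point. -/
theorem type_one_gen (h : IsC2Solution T u p) {t₀ : ℝ} (ht₀ : t₀ ∈ Ioo 0 T)
    (hrate : ∀ t ∈ Ico t₀ T, ∃ y, IsMaxPt u t y ∧
      (1 / Real.sqrt (T - t) < nrm (vort (u t) y) →
        Pq u t y ≤ 1 / (2 * (T - t)) * Wq u t y)) :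
    (∃ C : ℝ, ∀ᶠ t in 𝓝[<] T, ∀ x, nrm (vort (u t) x) ≤ C / Real.sqrt (T - t)) ∧
    BKMFinite T u := by
  obtain ⟨W, hW0, hW⟩ := vort_bound h.sol ht₀.2
  set C := max 1 (W * Real.sqrt (T - t₀)) with hCdef
  have hC1 : 1 ≤ C := le_max_left _ _
  have hmain : ∀ b ∈ Ico t₀ T, ∀ x, nrm (vort (u b) x) ≤ C * (1 / Real.sqrt (T - b)) := by
    intro b hb x
    have hsub : ∀ t ∈ Icc t₀ b, 0 < T - t := fun t ht => by linarith [ht.2, hb.2]
    refine comp_max h ht₀.1.le hb.1 hb.2 (G := fun t => C * (1 / Real.sqrt (T - t)))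
      (ρ := fun t => 1 / (2 * (T - t))) ?_ ?_ ?_ ?_ ?_ ?_ x
    · refine continuousOn_const.mul (continuousOn_const.div (by fun_prop) fun t ht => ?_)
      exact (Real.sqrt_pos.2 (hsub t ht)).ne'
    · refine (continuousOn_const.div (by fun_prop) fun t ht => ?_).integrableOn_Icc
      have := hsub t ht
      positivity
    · intro t ht
      have := hsub t ht
      positivity
    · intro s hs
      rw [mul_assoc, int_half hs.2 hb.2]
    · intro y
      have h1 := (hW t₀ ⟨ht₀.1.le, le_rfl⟩ y).1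
      have h2 : 0 < Real.sqrt (T - t₀) := Real.sqrt_pos.2 (sub_pos.2 ht₀.2)
      have h3 : W * Real.sqrt (T - t₀) ≤ C := le_max_right _ _
      rw [mul_one_div, le_div_iff₀ h2]
      exact (mul_le_mul_of_nonneg_right h1 h2.le).trans h3
    · refine Eventually.of_forall fun t ht => ?_
      obtain ⟨y, hy, hy2⟩ := hrate t ⟨ht.1.le, ht.2.trans hb.2⟩
      refine ⟨y, hy, fun hlt => hy2 (lt_of_le_of_lt ?_ hlt)⟩
      have := hsub t ⟨ht.1.le, ht.2.le⟩
      exact le_mul_of_one_le_left (by positivity) hC1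
  refine ⟨⟨C, ?_⟩, ?_⟩
  · filter_upwards [Ico_mem_nhdsLT ht₀.2] with t ht x
    have := hmain t ht x
    rwa [mul_one_div] at this
  -- finiteness of the integral
  obtain ⟨M', hM0', hM'⟩ := vort_bound h.sol ht₀.2
  have hint : IntegrableOn (fun t => C * (1 / Real.sqrt (T - t))) (Ioc t₀ T) := by
    have h1 : IntegrableOn (fun t => 1 / Real.sqrt (T - t)) (Ioc t₀ T) := by
      refine intervalIntegral.integrableOn_deriv_of_nonneg
        (g := fun t => -2 * Real.sqrt (T - t)) ?_ ?_ ?_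
      · exact (continuous_const.mul (Real.continuous_sqrt.comp
          (continuous_const.sub continuous_id))).continuousOn
      · intro t ht
        have hTt : 0 < T - t := sub_pos.2 ht.2
        have h2 : HasDerivAt (fun r => T - r) (-1) t := by
          simpa using (hasDerivAt_id t).const_sub T
        have h3 := (h2.sqrt hTt.ne').const_mul (-2)
        refine h3.congr_deriv ?_
        have := (Real.sqrt_pos.2 hTt).ne'
        field_simp
      · intro t ht
        have hTt : 0 < T - t := sub_pos.2 ht.2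
        positivity
    exact h1.const_mul C
  have hfin2 : ∫⁻ t in Ico t₀ T, ⨆ x, ENNReal.ofReal (nrm (vort (u t) x)) < ∞ := by
    have h1 : ∫⁻ t in Ico t₀ T, ⨆ x, ENNReal.ofReal (nrm (vort (u t) x))
        ≤ ∫⁻ t in Ico t₀ T, ENNReal.ofReal (C * (1 / Real.sqrt (T - t))) := by
      refine setLIntegral_mono' measurableSet_Ico fun t ht => ?_
      exact iSup_le fun x => ENNReal.ofReal_le_ofReal (hmain t ht x)
    refine h1.trans_lt ?_
    have h2 : IntegrableOn (fun t => C * (1 / Real.sqrt (T - t))) (Ico t₀ T) := by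
      rw [integrableOn_Ico_iff_integrableOn_Ioo, ← integrableOn_Ioc_iff_integrableOn_Ioo]
      exact hint
    exact h2.lintegral_lt_top
  have hfin1 : ∫⁻ t in Ioo 0 t₀, ⨆ x, ENNReal.ofReal (nrm (vort (u t) x)) < ∞ := by
    have h1 : ∫⁻ t in Ioo 0 t₀, ⨆ x, ENNReal.ofReal (nrm (vort (u t) x))
        ≤ ∫⁻ _t in Ioo 0 t₀, ENNReal.ofReal M' := by
      refine setLIntegral_mono' measurableSet_Ioo fun t ht => ?_
      exact iSup_le fun x => ENNReal.ofReal_le_ofReal (hM' t ⟨ht.1.le, ht.2.le⟩ x).1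
    refine h1.trans_lt ?_
    rw [setLIntegral_const, Real.volume_Ioo]
    exact ENNReal.mul_lt_top ENNReal.ofReal_lt_top ENNReal.ofReal_lt_top
  unfold BKMFinite
  have hsplit : Ioo 0 T ⊆ Ioo 0 t₀ ∪ Ico t₀ T := by
    intro t ht
    by_cases h1 : t < t₀
    · exact Or.inl ⟨ht.1, h1⟩
    · exact Or.inr ⟨not_lt.1 h1, ht.2⟩
  refine (lintegral_mono_set hsplit).trans_lt ?_
  refine (lintegral_union_le _ _ _).trans_lt ?_
  exact ENNReal.add_lt_top.2 ⟨hfin1, hfin2⟩

end Q177.OS
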