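import Pool.Agent.Q177.OS.Crit

/-!
# Hölder bounds of the twist from one side, with the oscillation of the velocity
-/

set_option autoImplicit false

open MeasureTheory Set Topology Filter
open scoped NNReal ENNReal Pointwise

namespace Q177.OS

open Pool.Agent.H708R2.EulerSign Pool.Agent.H708R2.EulerTypeI
open Pool.Agent.W786.Dir Pool.Agent.W786.Max Q177.EF

variable {v : V → V} {x₀ e : V}

/-- In the ball of radius `ρ` about `x₀` the vorticity stays in a cone about `e`, the stretching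
kernel has a one-sided Hölder bound, and the velocity oscillates by at most `U`. -/
def TwU (v : V → V) (x₀ e : V) (ρ a α U : ℝ) : Prop :=
  ∀ y, nrm (y - x₀) < ρ → nrm (v y - v x₀) ≤ U ∧ a * nrm (vort v y) ≤ vort v y ⬝ᵥ e ∧
    -(nrm (vort v y) * nrm (y - x₀) ^ 2 * (nrm (y - x₀) / ρ) ^ α) ≤
      ((y - x₀) ⬝ᵥ e) * (vort v y ⬝ᵥ cross (y - x₀) e)

/-- The derivative of the averages of the rate from below. -/
lemma dA_lowerH (hv : ContDiff ℝ 2 v) (hdiv : ∀ x, divergence v x = 0) {ρ a α U : ℝ}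
    (hρ : 0 < ρ) (hα : 0 < α) (hb : TwU v x₀ e ρ a α U) {r : ℝ} (hr : 0 < r) (hrρ : r ≤ ρ) :
    -(6 / r * (r / ρ) ^ α * ∫ z, P 2 z * nrm (vort v (x₀ + r • z)))
      ≤ ∫ z, P 3 z * fderiv ℝ (rate v e) (x₀ + r • z) z := by
  have h1 := rate_formula hv hdiv e x₀ r
  have hωc : Continuous fun z => vort v (x₀ + r • z) := (vort_cont hv).comp (by fun_prop)
  have h2 : -((r / ρ) ^ α) * ∫ z, P 2 z * nrm (vort v (x₀ + r • z))
      ≤ ∫ z, (z ⬝ᵥ e) * P 2 z * (vort v (x₀ + r • z) ⬝ᵥ cross z e) := by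
    rw [← integral_const_mul]
    refine integral_mono ((J_cont hv 1 r).const_mul _) ?_ fun z => ?_
    · have hc : Continuous fun z => (z ⬝ᵥ e) * P 2 z * (vort v (x₀ + r • z) ⬝ᵥ cross z e) := by
        have c1 : Continuous fun z : V => z ⬝ᵥ e := by simp only [dotProduct]; fun_prop
        have c2 : Continuous fun z : V => cross z e := by
          refine continuous_pi fun i => ?_
          fin_cases i <;> simp [cross] <;> fun_prop
        have c3 : Continuous fun z => vort v (x₀ + r • z) ⬝ᵥ cross z e := by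
          simp only [dotProduct]
          exact continuous_finsetSum _ fun i _ =>
            ((continuous_apply i).comp hωc).mul ((continuous_apply i).comp c2)
        exact (c1.mul (P_cont 2)).mul c3
      refine hc.integrable_of_hasCompactSupport ?_
      exact ((P_supp 1).mul_left (f := fun z : V => z ⬝ᵥ e)).mul_right
    · show -((r / ρ) ^ α) * (P 2 z * nrm (vort v (x₀ + r • z)))
        ≤ (z ⬝ᵥ e) * P 2 z * (vort v (x₀ + r • z) ⬝ᵥ cross z e)
      rcases lt_or_ge (z ⬝ᵥ z) 1 with hz | hz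
      · obtain ⟨hy, hyr⟩ := in_ball' (x₀ := x₀) hr hrρ hz
        obtain ⟨-, -, hb2⟩ := hb _ hy
        rw [hyr] at hb2
        simp only [add_sub_cancel_left] at hb2
        rw [smul_dotProduct, cross_smul, dotProduct_smul, smul_eq_mul, smul_eq_mul] at hb2
        set W := nrm (vort v (x₀ + r • z)) with hW
        set Q := vort v (x₀ + r • z) ⬝ᵥ cross z e
        have hz1 := (nrm_lt_one hz).le
        have hz0 := nrm_nonneg z
        have hW0 : 0 ≤ W := nrm_nonneg _
        have h3 : -(W * (r / ρ) ^ α) ≤ (z ⬝ᵥ e) * Q := by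
          have h4 : r ^ 2 * -(W * nrm z ^ 2 * (r * nrm z / ρ) ^ α) ≤ r ^ 2 * ((z ⬝ᵥ e) * Q) := by
            have e1 : r ^ 2 * -(W * nrm z ^ 2 * (r * nrm z / ρ) ^ α)
                = -(W * (r * nrm z) ^ 2 * (r * nrm z / ρ) ^ α) := by
              ring
            have e2 : r ^ 2 * ((z ⬝ᵥ e) * Q) = r * (z ⬝ᵥ e) * (r * Q) := by ring
            rw [e1, e2]
            exact hb2
          have h5 := le_of_mul_le_mul_left h4 (by positivity)
          refine le_trans ?_ h5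
          have h6 : nrm z ^ 2 ≤ 1 := pow_le_one₀ hz0 hz1
          have h7 : (r * nrm z / ρ) ^ α ≤ (r / ρ) ^ α := by
            have : r * nrm z ≤ r := mul_le_of_le_one_right hr.le hz1
            exact Real.rpow_le_rpow (by positivity) (by gcongr) hα.le
          have h8 : 0 ≤ (r * nrm z / ρ) ^ α := Real.rpow_nonneg (by positivity) _
          have h9 : W * nrm z ^ 2 * (r * nrm z / ρ) ^ α ≤ W * 1 * (r / ρ) ^ α := by gcongr
          linarith
        have hp := P_nonneg 2 z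
        calc -((r / ρ) ^ α) * (P 2 z * W) = P 2 z * -(W * (r / ρ) ^ α) := by ring
          _ ≤ P 2 z * ((z ⬝ᵥ e) * Q) := mul_le_mul_of_nonneg_left h3 hp
          _ = (z ⬝ᵥ e) * P 2 z * Q := by ring
      · have e2 : P 2 z = 0 := P_zero_of hz
        rw [e2]
        simp
  have h3 : r * -(6 / r * (r / ρ) ^ α * ∫ z, P 2 z * nrm (vort v (x₀ + r • z)))
      ≤ r * ∫ z, P 3 z * fderiv ℝ (rate v e) (x₀ + r • z) z := by
    rw [h1]
    calc r * -(6 / r * (r / ρ) ^ α * ∫ z, P 2 z * nrm (vort v (x₀ + r • z)))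
        = 6 * (-((r / ρ) ^ α) * ∫ z, P 2 z * nrm (vort v (x₀ + r • z))) := by
          field_simp
      _ ≤ _ := mul_le_mul_of_nonneg_left h2 (by norm_num)
  exact le_of_mul_le_mul_left h3 hr

/-- The mean vorticity in the cone. -/
lemma J_leH (hv : ContDiff ℝ 2 v) (he : nrm e ≤ 1) {ρ a α U : ℝ} (ha : 0 < a)
    (hb : TwU v x₀ e ρ a α U) {r : ℝ} (hr : 0 < r) (hrρ : r ≤ ρ) (c : V) :
    ∫ z, P 2 z * nrm (vort v (x₀ + r • z)) ≤ 24 / (a * r) * N v x₀ c r := by
  have hωc : Continuous fun z => vort v (x₀ + r • z) := (vort_cont hv).comp (by fun_prop)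
  have h1 : a * ∫ z, P 2 z * nrm (vort v (x₀ + r • z))
      ≤ ∫ z, P 2 z * (vort v (x₀ + r • z) ⬝ᵥ e) := by
    rw [← integral_const_mul]
    refine integral_mono ((J_cont hv 1 r).const_mul _) ?_ fun z => ?_
    · have c1 : Continuous fun z : V => vort v (x₀ + r • z) ⬝ᵥ e := by
        simp only [dotProduct]
        exact continuous_finsetSum _ fun i _ =>
          ((continuous_apply i).comp hωc).mul continuous_const
      exact ((P_cont 2).mul c1).integrable_of_hasCompactSupport (P_supp 1).mul_right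
    · show a * (P 2 z * nrm (vort v (x₀ + r • z))) ≤ P 2 z * (vort v (x₀ + r • z) ⬝ᵥ e)
      rcases lt_or_ge (z ⬝ᵥ z) 1 with hz | hz
      · obtain ⟨hy, -⟩ := in_ball' (x₀ := x₀) hr hrρ hz
        have h2 := (hb _ hy).2.1
        have hp := P_nonneg 2 z
        calc a * (P 2 z * nrm (vort v (x₀ + r • z)))
            = P 2 z * (a * nrm (vort v (x₀ + r • z))) := by ring
          _ ≤ _ := mul_le_mul_of_nonneg_left h2 hp
      · have e2 : P 2 z = 0 := P_zero_of hz
        rw [e2]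
        simp
  have h2 := h1.trans (curl_avg hv he hr x₀ c)
  have h3 : ∫ z, P 2 z * nrm (vort v (x₀ + r • z)) ≤ (24 / r * N v x₀ c r) / a := by
    rw [le_div_iff₀ ha]; linarith
  refine h3.trans (le_of_eq ?_)
  field_simp

/-- The mean oscillation. -/
lemma N_leU (hv : Continuous v) {ρ a α U : ℝ} (hb : TwU v x₀ e ρ a α U) {r : ℝ}
    (hr : 0 < r) (hrρ : r ≤ ρ) : N v x₀ (v x₀) r ≤ U * ∫ z, P 1 z := by
  rw [N, ← integral_const_mul]
  refine integral_mono (N_int hv _ _ _) ((P_integrable 0).const_mul U) fun z => ?_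
  show P 1 z * nrm (v (x₀ + r • z) - v x₀) ≤ U * P 1 z
  rcases lt_or_ge (z ⬝ᵥ z) 1 with hz | hz
  · obtain ⟨hy, -⟩ := in_ball' (x₀ := x₀) hr hrρ hz
    have h2 := (hb _ hy).1
    rw [mul_comm]
    exact mul_le_mul_of_nonneg_right h2 (P_nonneg 1 z)
  · have e2 : P 1 z = 0 := P_zero_of hz
    rw [e2]; simp

/-- Comparison. -/
lemma comp_mono {A A' g g' : ℝ → ℝ} {s t : ℝ} (hst : s ≤ t) (hAc : ContinuousOn A (Icc s t))
    (hA : ∀ r ∈ Ioo s t, HasDerivAt A (A' r) r) (hgc : ContinuousOn g (Icc s t))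
    (hg : ∀ r ∈ Ioo s t, HasDerivAt g (g' r) r) (h : ∀ r ∈ Ioo s t, -(g' r) ≤ A' r) :
    A s ≤ A t + (g t - g s) := by
  have hm : MonotoneOn (fun r => A r + g r) (Icc s t) := by
    refine monotoneOn_of_deriv_nonneg (convex_Icc s t) (hAc.add hgc) ?_ ?_
    · rw [interior_Icc]
      intro r hr
      exact ((hA r hr).fun_add (hg r hr)).differentiableAt.differentiableWithinAt
    · rw [interior_Icc]
      intro r hr
      rw [((hA r hr).fun_add (hg r hr)).deriv]
      have := h r hr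
      linarith
  have := hm ⟨le_rfl, hst⟩ ⟨hst, le_rfl⟩ hst
  simp only at this
  linarith

/-- The constant. -/
noncomputable def Kve : ℝ := (6 * (∫ z, P 2 z) + 150 * ∫ z, P 1 z) / ∫ z, P 3 z

lemma Kve_pos : 0 < Kve := by
  have h1 : 0 < ∫ z, P 1 z := P_int_pos 0
  have h2 : 0 < ∫ z, P 2 z := P_int_pos 1
  have h3 : 0 < ∫ z, P 3 z := P_int_pos 2
  unfold Kve
  positivity

/-- The averages of the rate near the point. -/
lemma near_part (hv : ContDiff ℝ 2 v) (hdiv : ∀ x, divergence v x = 0)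
    {ρ a α U Ω : ℝ} (hρ : 0 < ρ) (hα : 0 < α) (hb : TwU v x₀ e ρ a α U)
    (hΩ : ∀ y, nrm (vort v y) ≤ Ω) {s : ℝ} (hs : 0 < s) (hsρ : s ≤ ρ) :
    (∫ z, P 3 z) * rate v e x₀ ≤ (∫ z, P 3 z * rate v e (x₀ + s • z))
      + 6 / α * Ω * (∫ z, P 2 z) * (s / ρ) ^ α := by
  set I2 := ∫ z, P 2 z with hI2
  have c2 : 0 < I2 := P_int_pos 1
  set A : ℝ → ℝ := fun r => ∫ z, P 3 z * rate v e (x₀ + r • z) with hA
  set A' : ℝ → ℝ := fun r => ∫ z, P 3 z * fderiv ℝ (rate v e) (x₀ + r • z) z with hA'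
  have hAd : ∀ r, HasDerivAt A (A' r) r := fun r =>
    param_deriv (P_cont 3) (P_supp 2) (rate_contDiff hv e) x₀ r
  have hA0 : A 0 = (∫ z, P 3 z) * rate v e x₀ := by
    simp only [hA, zero_smul, add_zero]
    rw [integral_mul_const]
  have hg : ∀ r ∈ Ioo 0 s, HasDerivAt (fun r => 6 / α * Ω * I2 * (r / ρ) ^ α)
      (6 / r * (r / ρ) ^ α * (Ω * I2)) r := by
    intro r hr
    have hr0 : 0 < r := hr.1
    have h1 : HasDerivAt (fun r : ℝ => r / ρ) (1 / ρ) r := (hasDerivAt_id r).div_const ρ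
    have h2 := h1.rpow_const (p := α) (Or.inl (by positivity))
    refine (h2.const_mul (6 / α * Ω * I2)).congr_deriv ?_
    rw [Real.rpow_sub_one (by positivity)]
    field_simp
  have h1 := comp_mono hs.le (fun r _ => (hAd r).continuousAt.continuousWithinAt)
    (fun r _ => hAd r) (A := A) (A' := A')
    (g := fun r => 6 / α * Ω * I2 * (r / ρ) ^ α)
    (g' := fun r => 6 / r * (r / ρ) ^ α * (Ω * I2)) ?_ hg ?_
  · simp only [zero_div, Real.zero_rpow hα.ne', mul_zero, sub_zero] at h1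
    rw [hA0] at h1
    exact h1
  · refine continuousOn_const.mul (ContinuousOn.rpow_const (by fun_prop) fun r _ => Or.inr hα.le)
  · intro r hr
    have hr0 : 0 < r := hr.1
    have hrρ : r ≤ ρ := hr.2.le.trans hsρ
    refine le_trans ?_ (dA_lowerH hv hdiv hρ hα hb hr0 hrρ)
    refine neg_le_neg (mul_le_mul_of_nonneg_left ?_ ?_)
    · rw [hI2, ← integral_const_mul]
      refine integral_mono (J_cont hv 1 r) ((P_integrable 1).const_mul Ω) fun z => ?_
      show P 2 z * nrm (vort v (x₀ + r • z)) ≤ Ω * P 2 z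
      rw [mul_comm]
      exact mul_le_mul_of_nonneg_right (hΩ _) (P_nonneg 2 z)
    · have : 0 ≤ (r / ρ) ^ α := Real.rpow_nonneg (by positivity) _
      positivity

/-- The lower bound of the derivative by the oscillation of the velocity. -/
lemma far_lower (hv : ContDiff ℝ 2 v) (hdiv : ∀ x, divergence v x = 0) (he : nrm e ≤ 1)
    {ρ a α U : ℝ} (hρ : 0 < ρ) (ha : 0 < a) (hα : 0 < α)
    (hb : TwU v x₀ e ρ a α U) {r : ℝ} (hr : 0 < r) (hrρ : r ≤ ρ) :
    -(144 * U * (∫ z, P 1 z) / a * ((r / ρ) ^ α / r ^ 2))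
      ≤ ∫ z, P 3 z * fderiv ℝ (rate v e) (x₀ + r • z) z := by
  refine le_trans ?_ (dA_lowerH hv hdiv hρ hα hb hr hrρ)
  refine neg_le_neg ?_
  have h1 := J_leH hv he ha hb hr hrρ (v x₀)
  have h2 := N_leU hv.continuous hb hr hrρ
  have h3 : 0 ≤ (r / ρ) ^ α := Real.rpow_nonneg (by positivity) _
  calc 6 / r * (r / ρ) ^ α * ∫ z, P 2 z * nrm (vort v (x₀ + r • z))
      ≤ 6 / r * (r / ρ) ^ α * (24 / (a * r) * (U * ∫ z, P 1 z)) := by
        refine mul_le_mul_of_nonneg_left (h1.trans ?_) (by positivity)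
        exact mul_le_mul_of_nonneg_left h2 (by positivity)
    _ = _ := by field_simp; ring

lemma top_part (hv : ContDiff ℝ 2 v) (he : nrm e ≤ 1) {ρ a α U : ℝ} (hρ : 0 < ρ)
    (hb : TwU v x₀ e ρ a α U) :
    ∫ z, P 3 z * rate v e (x₀ + ρ • z) ≤ 6 * (∫ z, P 1 z) * (U / ρ) := by
  have h1 := (abs_le.1 (rate_avg hv he hρ x₀ (v x₀))).2
  have h2 := N_leU hv.continuous hb hρ le_rfl
  refine h1.trans ?_
  calc 6 / ρ * N v x₀ (v x₀) ρ ≤ 6 / ρ * (U * ∫ z, P 1 z) :=
        mul_le_mul_of_nonneg_left h2 (by positivity)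
    _ = _ := by field_simp

/-- **The rate for a Lipschitz twist.** -/
theorem rate_one (hv : ContDiff ℝ 2 v) (hdiv : ∀ x, divergence v x = 0) (he : nrm e ≤ 1)
    {ρ a U Ω : ℝ} (hρ : 0 < ρ) (ha : 0 < a) (ha1 : a ≤ 1) (hU : 0 ≤ U)
    (hb : TwU v x₀ e ρ a 1 U) (hΩ : ∀ y, nrm (vort v y) ≤ Ω) (hΩ0 : 0 ≤ Ω)
    {δ : ℝ} (hδ : 0 < δ) (hδ1 : δ ≤ 1) :
    rate v e x₀ ≤ Kve / a * (U / ρ * (1 + Real.log (1 / δ)) + δ * Ω) := by
  have c1 : 0 < ∫ z, P 1 z := P_int_pos 0
  have c2 : 0 < ∫ z, P 2 z := P_int_pos 1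
  have c3 : 0 < ∫ z, P 3 z := P_int_pos 2
  set I1 := ∫ z, P 1 z with hI1
  set I2 := ∫ z, P 2 z with hI2
  set I3 := ∫ z, P 3 z with hI3
  have hs : 0 < δ * ρ := by positivity
  have hsρ : δ * ρ ≤ ρ := mul_le_of_le_one_left hρ.le hδ1
  have h1 := near_part hv hdiv hρ one_pos hb hΩ hs hsρ
  rw [Real.rpow_one, mul_div_assoc, div_self hρ.ne', mul_one, div_one] at h1
  have h3 := top_part hv he hρ hb
  set A : ℝ → ℝ := fun r => ∫ z, P 3 z * rate v e (x₀ + r • z) with hA
  set A' : ℝ → ℝ := fun r => ∫ z, P 3 z * fderiv ℝ (rate v e) (x₀ + r • z) z with hA'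
  have hAd : ∀ r, HasDerivAt A (A' r) r := fun r =>
    param_deriv (P_cont 3) (P_supp 2) (rate_contDiff hv e) x₀ r
  have h2 := comp_mono hsρ (fun r _ => (hAd r).continuousAt.continuousWithinAt)
    (fun r _ => hAd r) (A := A) (A' := A')
    (g := fun r => 144 * U * I1 / (a * ρ) * Real.log r)
    (g' := fun r => 144 * U * I1 / (a * ρ) * r⁻¹) ?_ ?_ ?_
  · have h4 : 144 * U * I1 / (a * ρ) * Real.log ρ - 144 * U * I1 / (a * ρ) * Real.log (δ * ρ)
        = 144 * U * I1 / (a * ρ) * Real.log (1 / δ) := by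
      rw [Real.log_mul hδ.ne' hρ.ne', one_div, Real.log_inv]
      ring
    simp only [h4] at h2
    have hlog : 0 ≤ Real.log (1 / δ) := Real.log_nonneg (by rw [one_le_div hδ]; exact hδ1)
    have hUρ : 0 ≤ U / ρ := by positivity
    have key : I3 * rate v e x₀ ≤ 6 * I1 * (U / ρ)
        + 144 * U * I1 / (a * ρ) * Real.log (1 / δ) + 6 * Ω * I2 * δ := by
      have : (∫ z, P 3 z * rate v e (x₀ + (δ * ρ) • z)) = A (δ * ρ) := rfl
      rw [this] at h1
      have : (∫ z, P 3 z * rate v e (x₀ + ρ • z)) = A ρ := rfl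
      rw [this] at h3
      linarith
    have h5 : rate v e x₀ ≤ (6 * I1 * (U / ρ)
        + 144 * U * I1 / (a * ρ) * Real.log (1 / δ) + 6 * Ω * I2 * δ) / I3 := by
      rw [le_div_iff₀ c3]; linarith
    refine h5.trans ?_
    unfold Kve
    rw [← hI1, ← hI2, ← hI3, div_div, div_mul_eq_mul_div ((6 * I2) + 150 * I1),
      div_le_div_iff₀ c3 (by positivity)]
    have e1 : 6 * I1 * (U / ρ) * a ≤ 6 * I1 * (U / ρ) := mul_le_of_le_one_right (by positivity) ha1
    have e2 : 144 * U * I1 / (a * ρ) * Real.log (1 / δ) * a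
        = 144 * I1 * (U / ρ * Real.log (1 / δ)) := by field_simp
    have e3 : 6 * Ω * I2 * δ * a ≤ 6 * Ω * I2 * δ := mul_le_of_le_one_right (by positivity) ha1
    have e4 : 0 ≤ U / ρ * Real.log (1 / δ) := by positivity
    have e5 : 0 ≤ δ * Ω := by positivity
    have e6 : (6 * I1 * (U / ρ) + 144 * U * I1 / (a * ρ) * Real.log (1 / δ) + 6 * Ω * I2 * δ) * a
        ≤ (6 * I2 + 150 * I1) * (U / ρ * (1 + Real.log (1 / δ)) + δ * Ω) := by
      rw [add_mul, add_mul, e2]
      nlinarith [mul_nonneg c1.le e4, mul_nonneg c1.le hUρ, mul_nonneg c2.le e4,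
        mul_nonneg c2.le hUρ, mul_nonneg c1.le e5, mul_nonneg c2.le e5]
    calc (6 * I1 * (U / ρ) + 144 * U * I1 / (a * ρ) * Real.log (1 / δ) + 6 * Ω * I2 * δ)
          * (I3 * a)
        = I3 * ((6 * I1 * (U / ρ) + 144 * U * I1 / (a * ρ) * Real.log (1 / δ)
          + 6 * Ω * I2 * δ) * a) := by ring
      _ ≤ I3 * ((6 * I2 + 150 * I1) * (U / ρ * (1 + Real.log (1 / δ)) + δ * Ω)) :=
          mul_le_mul_of_nonneg_left e6 c3.le
      _ = _ := by ring
  · exact continuousOn_const.mul (Real.continuousOn_log.mono fun r hr =>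
      (hs.trans_le hr.1).ne')
  · intro r hr
    exact (Real.hasDerivAt_log (hs.trans hr.1).ne').const_mul _
  · intro r hr
    have hr0 : 0 < r := hs.trans hr.1
    refine le_trans (le_of_eq ?_) (far_lower hv hdiv he hρ ha one_pos hb hr0 hr.2.le)
    rw [Real.rpow_one, ← hI1]
    field_simp

/-- **The rate for a Hölder twist.** -/
theorem rate_hol (hv : ContDiff ℝ 2 v) (hdiv : ∀ x, divergence v x = 0) (he : nrm e ≤ 1)
    {ρ a α U Ω : ℝ} (hρ : 0 < ρ) (ha : 0 < a) (ha1 : a ≤ 1) (hα : 0 < α) (hα1 : α < 1)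
    (hU : 0 < U) (hb : TwU v x₀ e ρ a α U) (hΩ : ∀ y, nrm (vort v y) ≤ Ω) (hΩ0 : 0 < Ω) :
    rate v e x₀ ≤ Kve / (a * α * (1 - α)) * (U / ρ + (U / ρ) ^ α * Ω ^ (1 - α)) := by
  have c1 : 0 < ∫ z, P 1 z := P_int_pos 0
  have c2 : 0 < ∫ z, P 2 z := P_int_pos 1
  have c3 : 0 < ∫ z, P 3 z := P_int_pos 2
  set I1 := ∫ z, P 1 z with hI1
  set I2 := ∫ z, P 2 z with hI2
  set I3 := ∫ z, P 3 z with hI3
  have hβ : 0 < 1 - α := by linarith
  have h3 := top_part hv he hρ hb
  set A : ℝ → ℝ := fun r => ∫ z, P 3 z * rate v e (x₀ + r • z) with hA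
  set A' : ℝ → ℝ := fun r => ∫ z, P 3 z * fderiv ℝ (rate v e) (x₀ + r • z) z with hA'
  have hAd : ∀ r, HasDerivAt A (A' r) r := fun r =>
    param_deriv (P_cont 3) (P_supp 2) (rate_contDiff hv e) x₀ r
  have hUρ : 0 < U / ρ := by positivity
  set q : ℝ := (U / ρ) ^ α * Ω ^ (1 - α) with hq
  have hq0 : 0 < q := mul_pos (Real.rpow_pos_of_pos hUρ _) (Real.rpow_pos_of_pos hΩ0 _)
  have key : I3 * rate v e x₀ ≤ (6 * I1 + 6 / α * I2) * (U / ρ)
      + (6 / α * I2 + 144 * I1 / (a * (1 - α))) * q := by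
    rcases le_or_gt Ω (U / ρ) with hcase | hcase
    · have h1 := near_part hv hdiv hρ hα hb hΩ hρ le_rfl
      rw [div_self hρ.ne', Real.one_rpow, mul_one] at h1
      have : (∫ z, P 3 z * rate v e (x₀ + ρ • z)) = A ρ := rfl
      rw [this] at h1 h3
      have h2 : 6 / α * Ω * I2 ≤ 6 / α * (U / ρ) * I2 := by gcongr
      have h4 : 0 ≤ (6 / α * I2 + 144 * I1 / (a * (1 - α))) * q := by positivity
      linarith
    · set δ : ℝ := U / ρ / Ω with hδ
      have hδ0 : 0 < δ := by positivity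
      have hδ1 : δ ≤ 1 := by rw [hδ, div_le_one hΩ0]; exact hcase.le
      have hs : 0 < δ * ρ := by positivity
      have hsρ : δ * ρ ≤ ρ := mul_le_of_le_one_left hρ.le hδ1
      have h1 := near_part hv hdiv hρ hα hb hΩ hs hsρ
      rw [mul_div_assoc, div_self hρ.ne', mul_one] at h1
      have hUδ : U / ρ = δ * Ω := by rw [hδ]; field_simp
      have q1 : Ω * δ ^ α = q := by
        rw [hq, hUδ, Real.mul_rpow hδ0.le hΩ0.le, mul_assoc, ← Real.rpow_add hΩ0]
        norm_num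
        ring
      have q2 : U / ρ * δ ^ (α - 1) = q := by
        rw [Real.rpow_sub_one hδ0.ne', ← q1, hUδ]
        field_simp
      have h2 := comp_mono hsρ (fun r _ => (hAd r).continuousAt.continuousWithinAt)
        (fun r _ => hAd r) (A := A) (A' := A')
        (g := fun r => -(144 * I1 / (a * (1 - α)) * (U / ρ)) * (r / ρ) ^ (α - 1))
        (g' := fun r => 144 * U * I1 / a * ((r / ρ) ^ α / r ^ 2)) ?_ ?_ ?_
      · simp only [div_self hρ.ne', Real.one_rpow, mul_div_assoc] at h2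
        rw [mul_one, mul_one] at h2
        have h5 : 0 ≤ 144 * I1 / (a * (1 - α)) * (U / ρ) := by positivity
        have h6 : 144 * I1 / (a * (1 - α)) * (U / ρ) * δ ^ (α - 1)
            = 144 * I1 / (a * (1 - α)) * q := by rw [← q2]; ring
        have : (∫ z, P 3 z * rate v e (x₀ + (δ * ρ) • z)) = A (δ * ρ) := rfl
        rw [this] at h1
        have : (∫ z, P 3 z * rate v e (x₀ + ρ • z)) = A ρ := rfl
        rw [this] at h3
        have h7 : 6 / α * Ω * I2 * δ ^ α = 6 / α * I2 * q := by rw [← q1]; ring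
        have h8 : 0 ≤ 6 / α * I2 * (U / ρ) := by positivity
        have h9 : 144 * (I1 / (a * (1 - α))) = 144 * I1 / (a * (1 - α)) := by ring
        rw [h9] at h2
        linarith
      · refine continuousOn_const.mul (ContinuousOn.rpow_const (by fun_prop) fun r hr => Or.inl ?_)
        have : 0 < r := hs.trans_le hr.1
        positivity
      · intro r hr
        have hr0 : 0 < r := hs.trans hr.1
        have h4 : HasDerivAt (fun r : ℝ => r / ρ) (1 / ρ) r := (hasDerivAt_id r).div_const ρ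
        have h5 := h4.rpow_const (p := α - 1) (Or.inl (by positivity))
        refine (h5.const_mul (-(144 * I1 / (a * (1 - α)) * (U / ρ)))).congr_deriv ?_
        rw [Real.rpow_sub_one (by positivity), Real.rpow_sub_one (by positivity)]
        have hx : 0 < (r / ρ) ^ α := Real.rpow_pos_of_pos (by positivity) _
        generalize (r / ρ) ^ α = X at hx ⊢
        field_simp
        ring
      · intro r hr
        have hr0 : 0 < r := hs.trans hr.1
        exact far_lower hv hdiv he hρ ha hα hb hr0 hr.2.le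
  have h5 : rate v e x₀ ≤ ((6 * I1 + 6 / α * I2) * (U / ρ)
      + (6 / α * I2 + 144 * I1 / (a * (1 - α))) * q) / I3 := by
    rw [le_div_iff₀ c3]; linarith
  refine h5.trans ?_
  have hm : 0 < a * α * (1 - α) := by positivity
  have f1 : 6 * I1 + 6 / α * I2 ≤ (6 * I2 + 150 * I1) / (a * α * (1 - α)) := by
    rw [le_div_iff₀ hm]
    have g1 : a * α * (1 - α) ≤ 1 := by
      have : a * α ≤ 1 := mul_le_one₀ ha1 hα.le hα1.le
      exact mul_le_one₀ this hβ.le (by linarith)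
    have g2 : a * (1 - α) ≤ 1 := mul_le_one₀ ha1 hβ.le (by linarith)
    calc (6 * I1 + 6 / α * I2) * (a * α * (1 - α))
        = 6 * I1 * (a * α * (1 - α)) + 6 * I2 * (a * (1 - α)) := by field_simp
      _ ≤ 6 * I1 * 1 + 6 * I2 * 1 := by gcongr
      _ ≤ 6 * I2 + 150 * I1 := by linarith
  have f2 : 6 / α * I2 + 144 * I1 / (a * (1 - α)) ≤ (6 * I2 + 150 * I1) / (a * α * (1 - α)) := by
    rw [le_div_iff₀ hm]
    have g2 : a * (1 - α) ≤ 1 := mul_le_one₀ ha1 hβ.le (by linarith)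
    calc (6 / α * I2 + 144 * I1 / (a * (1 - α))) * (a * α * (1 - α))
        = 6 * I2 * (a * (1 - α)) + 144 * I1 * α := by field_simp
      _ ≤ 6 * I2 * 1 + 144 * I1 * 1 := by gcongr
      _ ≤ 6 * I2 + 150 * I1 := by linarith
  calc ((6 * I1 + 6 / α * I2) * (U / ρ) + (6 / α * I2 + 144 * I1 / (a * (1 - α))) * q) / I3
      ≤ ((6 * I2 + 150 * I1) / (a * α * (1 - α)) * (U / ρ)
        + (6 * I2 + 150 * I1) / (a * α * (1 - α)) * q) / I3 := by gcongr
    _ = Kve / (a * α * (1 - α)) * (U / ρ + q) := by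
        unfold Kve
        rw [← hI1, ← hI2, ← hI3]
        field_simp

end Q177.OS
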