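import Pool.Agent.Q177.EF.Seg

/-!
# One-sided twist of the vorticity: the local estimate of the stretching rate
-/

set_option autoImplicit false

open MeasureTheory Set Topology Filter
open scoped NNReal ENNReal Pointwise

namespace Q177.OS

open Pool.Agent.H708R2.EulerSign Pool.Agent.H708R2.EulerTypeI
open Pool.Agent.W786.Dir Pool.Agent.W786.Max Q177.EF

/-- In the ball of radius `ρ` about `x₀` the vorticity stays in a cone about `e` and the stretching
kernel has a one-sided bound. -/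
def Tw (v : V → V) (x₀ e : V) (ρ a : ℝ) : Prop :=
  ∀ y, nrm (y - x₀) < ρ → a * nrm (vort v y) ≤ vort v y ⬝ᵥ e ∧
    -(nrm (vort v y) * nrm (y - x₀) ^ 3 / ρ) ≤
      ((y - x₀) ⬝ᵥ e) * (vort v y ⬝ᵥ cross (y - x₀) e)

variable {v : V → V} {x₀ e : V}

/-- The mean velocity difference. -/
noncomputable def N (v : V → V) (x₀ c : V) (r : ℝ) : ℝ := ∫ z, P 1 z * nrm (v (x₀ + r • z) - c)

lemma N_int (hv : Continuous v) (x₀ c : V) (r : ℝ) :
    Integrable fun z => P 1 z * nrm (v (x₀ + r • z) - c) := by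
  have h1 : Continuous fun z => nrm (v (x₀ + r • z) - c) :=
    nrm_cont.comp ((hv.comp (by fun_prop)).sub continuous_const)
  exact ((P_cont 1).mul h1).integrable_of_hasCompactSupport (P_supp 0).mul_right

lemma N_nonneg (v : V → V) (x₀ c : V) (r : ℝ) : 0 ≤ N v x₀ c r :=
  integral_nonneg fun z => mul_nonneg (P_nonneg 1 z) (nrm_nonneg _)

lemma abs_dot_le_one {z f : V} (hz : z ⬝ᵥ z < 1) (hf : nrm f ≤ 1) : |z ⬝ᵥ f| ≤ 1 :=
  (dot_le _ _).trans (mul_le_one₀ (nrm_lt_one hz).le (nrm_nonneg _) hf)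

lemma term (hv : ContDiff ℝ 2 v) (x₀ c : V) (r : ℝ) (j k : Fin 3) :
    |∫ z, P 2 z * fderiv ℝ (fun z => v (x₀ + r • z) j - c j) z (Pi.single k 1)|
      ≤ 4 * N v x₀ c r := by
  have hvj : ContDiff ℝ 1 fun y => v y j := (contDiff_pi.1 hv j).of_le (by norm_num)
  have cδ : ContDiff ℝ 1 (fun z => v (x₀ + r • z) j - c j) :=
    (comp_aff hvj x₀ r).sub contDiff_const
  rw [ibp (P_contDiff 0) (P_supp 1) cδ, abs_neg, N, ← integral_const_mul]
  rw [← Real.norm_eq_abs]
  refine norm_integral_le_of_norm_le ((N_int hv.continuous x₀ c r).const_mul _)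
    (Eventually.of_forall fun z => ?_)
  rw [Real.norm_eq_abs, abs_mul, P_fderiv 0 z]
  have hp := P_nonneg 1 z
  have hn := nrm_nonneg (v (x₀ + r • z) - c)
  rcases lt_or_ge (z ⬝ᵥ z) 1 with hz | hz
  · have b1 := abs_dot_le_one (f := Pi.single k 1) hz (nrm_single k).le
    have b2 : |v (x₀ + r • z) j - c j| ≤ nrm (v (x₀ + r • z) - c) :=
      abs_le_nrm (v (x₀ + r • z) - c) j
    have e3 : |-2 * (((0 : ℕ) : ℝ) + 2) * P (0 + 1) z * (z ⬝ᵥ Pi.single k 1)|
        = 4 * P 1 z * |z ⬝ᵥ Pi.single k 1| := by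
      rw [abs_mul, abs_mul, abs_of_nonneg (P_nonneg (0 + 1) z)]
      norm_num
    rw [e3]
    calc 4 * P 1 z * |z ⬝ᵥ Pi.single k 1| * |v (x₀ + r • z) j - c j|
        ≤ 4 * P 1 z * 1 * nrm (v (x₀ + r • z) - c) := by gcongr
      _ = 4 * (P 1 z * nrm (v (x₀ + r • z) - c)) := by ring
  · have e3 : P (0 + 1) z = 0 := P_zero_of hz
    rw [e3]
    simp only [mul_zero, zero_mul, abs_zero]
    positivity

/-- The mean of one component of the vorticity. -/
lemma curl_avg (hv : ContDiff ℝ 2 v) (he : nrm e ≤ 1) {r : ℝ} (hr : 0 < r) (x₀ c : V) :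
    ∫ z, P 2 z * (vort v (x₀ + r • z) ⬝ᵥ e) ≤ 24 / r * N v x₀ c r := by
  have hvj : ∀ j, ContDiff ℝ 1 fun y => v y j := fun j => (contDiff_pi.1 hv j).of_le (by norm_num)
  set δ : Fin 3 → V → ℝ := fun j z => v (x₀ + r • z) j - c j with hδ
  have cδ : ∀ j, ContDiff ℝ 1 (δ j) := fun j => (comp_aff (hvj j) x₀ r).sub contDiff_const
  have dδ : ∀ j k z, fderiv ℝ (δ j) z (Pi.single k 1) = r * grad v (x₀ + r • z) j k := by
    intro j k z
    have h1 : fderiv ℝ (δ j) z = fderiv ℝ (fun z => v (x₀ + r • z) j) z := fderiv_sub_const _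
    rw [h1, fderiv_comp_aff (S := fun y => v y j) (hvj j), smul_eq_mul]
    congr 1
    have h2 : HasFDerivAt v (fderiv ℝ v (x₀ + r • z)) (x₀ + r • z) :=
      ((hv.differentiable two_ne_zero) _).hasFDerivAt
    rw [(hasFDerivAt_pi'.1 h2 j).fderiv]
    rfl
  have ci : ∀ j k, Integrable fun z => P 2 z * fderiv ℝ (δ j) z (Pi.single k 1) := fun j k =>
    ((P_cont 2).mul (((cδ j).continuous_fderiv one_ne_zero).clm_apply
      continuous_const)).integrable_of_hasCompactSupport (P_supp 1).mul_right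
  set I : Fin 3 → Fin 3 → ℝ := fun j k => ∫ z, P 2 z * fderiv ℝ (δ j) z (Pi.single k 1) with hI
  have hIb : ∀ j k, |I j k| ≤ 4 * N v x₀ c r := fun j k => term hv x₀ c r j k
  have key : r * ∫ z, P 2 z * (vort v (x₀ + r • z) ⬝ᵥ e)
      = e 0 * (I 2 1 - I 1 2) + e 1 * (I 0 2 - I 2 0) + e 2 * (I 1 0 - I 0 1) := by
    have s0 : Integrable fun z => e 0 * (P 2 z * fderiv ℝ (δ 2) z (Pi.single 1 1)
        - P 2 z * fderiv ℝ (δ 1) z (Pi.single 2 1)) := ((ci 2 1).sub (ci 1 2)).const_mul _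
    have s1 : Integrable fun z => e 1 * (P 2 z * fderiv ℝ (δ 0) z (Pi.single 2 1)
        - P 2 z * fderiv ℝ (δ 2) z (Pi.single 0 1)) := ((ci 0 2).sub (ci 2 0)).const_mul _
    have s2 : Integrable fun z => e 2 * (P 2 z * fderiv ℝ (δ 1) z (Pi.single 0 1)
        - P 2 z * fderiv ℝ (δ 0) z (Pi.single 1 1)) := ((ci 1 0).sub (ci 0 1)).const_mul _
    have s01 : Integrable fun z => e 0 * (P 2 z * fderiv ℝ (δ 2) z (Pi.single 1 1)
        - P 2 z * fderiv ℝ (δ 1) z (Pi.single 2 1)) + e 1 * (P 2 z * fderiv ℝ (δ 0) z (Pi.single 2 1)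
        - P 2 z * fderiv ℝ (δ 2) z (Pi.single 0 1)) := s0.add s1
    simp only [hI]
    rw [← integral_sub (ci 2 1) (ci 1 2), ← integral_sub (ci 0 2) (ci 2 0),
      ← integral_sub (ci 1 0) (ci 0 1), ← integral_const_mul, ← integral_const_mul,
      ← integral_const_mul, ← integral_const_mul, ← integral_add s0 s1, ← integral_add s01 s2]
    refine integral_congr_ae (Eventually.of_forall fun z => ?_)
    simp only [dδ, vort, dotProduct, Fin.sum_univ_three, Matrix.cons_val_zero,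
      Matrix.cons_val_one, Matrix.cons_val]
    ring
  have hN := N_nonneg v x₀ c r
  have he' : ∀ i, |e i| ≤ 1 := fun i => (abs_le_nrm e i).trans he
  have tm : ∀ (i j k l m : Fin 3), e i * (I j k - I l m) ≤ 8 * N v x₀ c r := by
    intro i j k l m
    calc e i * (I j k - I l m) ≤ |e i * (I j k - I l m)| := le_abs_self _
      _ = |e i| * |I j k - I l m| := abs_mul _ _
      _ ≤ 1 * (4 * N v x₀ c r + 4 * N v x₀ c r) := by
        refine mul_le_mul (he' i) ?_ (abs_nonneg _) zero_le_one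
        exact (abs_sub _ _).trans (add_le_add (hIb j k) (hIb l m))
      _ = 8 * N v x₀ c r := by ring
  rw [div_mul_eq_mul_div, le_div_iff₀ hr, mul_comm, key]
  have h1 := tm 0 2 1 1 2
  have h2 := tm 1 0 2 2 0
  have h3 := tm 2 1 0 0 1
  linarith

/-- The average of the rate. -/
lemma rate_avg (hv : ContDiff ℝ 2 v) (he : nrm e ≤ 1) {r : ℝ} (hr : 0 < r) (x₀ c : V) :
    |∫ z, P 3 z * rate v e (x₀ + r • z)| ≤ 6 / r * N v x₀ c r := by
  have hvj : ∀ j, ContDiff ℝ 1 fun y => v y j := fun j =>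
    (contDiff_pi.1 hv j).of_le (by norm_num)
  set w : V → ℝ := fun y => ∑ j, e j * v y j with hw
  have cw : ContDiff ℝ 1 w := ContDiff.sum fun j _ => contDiff_const.mul (hvj j)
  set δ : V → ℝ := fun z => w (x₀ + r • z) - e ⬝ᵥ c with hδ
  have cδ : ContDiff ℝ 1 δ := (comp_aff cw x₀ r).sub contDiff_const
  have dδ : ∀ z, fderiv ℝ δ z e = r * rate v e (x₀ + r • z) := by
    intro z
    have h1 : fderiv ℝ δ z = fderiv ℝ (fun z => w (x₀ + r • z)) z := fderiv_sub_const _
    rw [h1, fderiv_comp_aff cw, smul_eq_mul]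
    congr 1
    have h2 : HasFDerivAt v (fderiv ℝ v (x₀ + r • z)) (x₀ + r • z) :=
      ((hv.differentiable two_ne_zero) _).hasFDerivAt
    have h3 : HasFDerivAt w (∑ j, e j • ((ContinuousLinearMap.proj j : V →L[ℝ] ℝ) ∘L
        fderiv ℝ v (x₀ + r • z))) (x₀ + r • z) :=
      HasFDerivAt.fun_sum fun j _ => (hasFDerivAt_pi'.1 h2 j).const_mul (e j)
    rw [h3.fderiv]
    have h4 : fderiv ℝ v (x₀ + r • z) e = ∑ k, e k • fderiv ℝ v (x₀ + r • z) (Pi.single k 1) := by
      conv_lhs => rw [show e = ∑ k, e k • (Pi.single k 1 : V) by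
        ext i; simp [Finset.sum_apply, Pi.single_apply]]
      rw [map_sum]
      simp
    simp only [FunLike.coe_sum, Finset.sum_apply, FunLike.coe_smul, Pi.smul_apply,
      ContinuousLinearMap.comp_apply, smul_eq_mul, h4, rate, dotProduct, Matrix.mulVec, grad,
      Matrix.of_apply]
    refine Finset.sum_congr rfl fun j _ => ?_
    simp [mul_comm]
  have h1 : r * ∫ z, P 3 z * rate v e (x₀ + r • z) = -∫ z, fderiv ℝ (P 3) z e * δ z := by
    rw [← ibp (P_contDiff 1) (P_supp 2) cδ e, ← integral_const_mul]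
    refine integral_congr_ae (Eventually.of_forall fun z => ?_)
    simp only [dδ]
    ring
  have h2 : |∫ z, fderiv ℝ (P 3) z e * δ z| ≤ 6 * N v x₀ c r := by
    rw [N, ← integral_const_mul, ← Real.norm_eq_abs]
    refine norm_integral_le_of_norm_le ((N_int hv.continuous x₀ c r).const_mul _)
      (Eventually.of_forall fun z => ?_)
    rw [Real.norm_eq_abs, abs_mul, show P 3 = P (1 + 2) from rfl, P_fderiv 1 z e]
    have hp := P_nonneg 2 z
    have hp1 := P_nonneg 1 z
    have hp21 : P 2 z ≤ P 1 z := P_le z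
    have hn := nrm_nonneg (v (x₀ + r • z) - c)
    rcases lt_or_ge (z ⬝ᵥ z) 1 with hz | hz
    · have b1 := abs_dot_le_one (f := e) hz he
      have b2 : |δ z| ≤ nrm (v (x₀ + r • z) - c) := by
        have e1 : δ z = e ⬝ᵥ (v (x₀ + r • z) - c) := by
          simp only [hδ, hw, dotProduct, Pi.sub_apply, Fin.sum_univ_three]
          ring
        rw [e1]
        refine (dot_le _ _).trans ?_
        calc nrm e * nrm (v (x₀ + r • z) - c) ≤ 1 * nrm (v (x₀ + r • z) - c) := by gcongr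
          _ = _ := one_mul _
      have e3 : |-2 * (((1 : ℕ) : ℝ) + 2) * P (1 + 1) z * (z ⬝ᵥ e)| = 6 * P 2 z * |z ⬝ᵥ e| := by
        rw [abs_mul, abs_mul, abs_of_nonneg (P_nonneg (1 + 1) z)]
        norm_num
      rw [e3]
      calc 6 * P 2 z * |z ⬝ᵥ e| * |δ z| ≤ 6 * P 1 z * 1 * nrm (v (x₀ + r • z) - c) := by gcongr
        _ = 6 * (P 1 z * nrm (v (x₀ + r • z) - c)) := by ring
    · have e3 : P (1 + 1) z = 0 := P_zero_of hz
      rw [e3]
      simp only [mul_zero, zero_mul, abs_zero]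
      positivity
  have h3 : |∫ z, P 3 z * rate v e (x₀ + r • z)| * r ≤ 6 * N v x₀ c r := by
    rw [← abs_of_pos hr, ← abs_mul, mul_comm, abs_of_pos hr, h1, abs_neg]
    exact h2
  rw [div_mul_eq_mul_div, le_div_iff₀ hr]
  exact h3

lemma in_ball' {r ρ : ℝ} (hr : 0 < r) (hrG : r ≤ ρ) {z : V} (hz : z ⬝ᵥ z < 1) :
    nrm (x₀ + r • z - x₀) < ρ ∧ nrm (x₀ + r • z - x₀) = r * nrm z := by
  rw [add_sub_cancel_left, nrm_smul, abs_of_pos hr]
  have h1 := nrm_lt_one hz
  exact ⟨lt_of_lt_of_le (mul_lt_of_lt_one_right hr h1) hrG, rfl⟩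

lemma cross_smul (r : ℝ) (z e : V) : cross (r • z) e = r • cross z e := by
  ext i
  fin_cases i <;> simp [cross] <;> ring

/-- The derivative of the averages of the rate from below. -/
lemma dA_lower (hv : ContDiff ℝ 2 v) (hdiv : ∀ x, divergence v x = 0) {ρ a : ℝ}
    (hρ : 0 < ρ) (hb : Tw v x₀ e ρ a) {r : ℝ} (hr : 0 < r) (hrρ : r ≤ ρ) :
    -(6 / ρ * ∫ z, P 2 z * nrm (vort v (x₀ + r • z)))
      ≤ ∫ z, P 3 z * fderiv ℝ (rate v e) (x₀ + r • z) z := by
  have h1 := rate_formula hv hdiv e x₀ r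
  have hωc : Continuous fun z => vort v (x₀ + r • z) := (vort_cont hv).comp (by fun_prop)
  have h2 : -(r / ρ) * ∫ z, P 2 z * nrm (vort v (x₀ + r • z))
      ≤ ∫ z, (z ⬝ᵥ e) * P 2 z * (vort v (x₀ + r • z) ⬝ᵥ cross z e) := by
    rw [← integral_const_mul]
    refine integral_mono ((J_cont hv 1 r).const_mul _) ?_ fun z => ?_
    · have hc : Continuous fun z => (z ⬝ᵥ e) * P 2 z * (vort v (x₀ + r • z) ⬝ᵥ cross z e) := by
        have c1 : Continuous fun z : V => z ⬝ᵥ e := by simp only [dotProduct]; fun_prop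
        have c2 : Continuous fun z : V => cross z e := by
          refine continuous_pi fun i => ?_
          fin_cases i <;> simp [cross] <;> fun_prop
        have c3 : Continuous fun z => vort v (x₀ + r • z) ⬝ᵥ cross z e := by
          simp only [dotProduct]
          exact continuous_finsetSum _ fun i _ =>
            ((continuous_apply i).comp hωc).mul ((continuous_apply i).comp c2)
        exact (c1.mul (P_cont 2)).mul c3
      refine hc.integrable_of_hasCompactSupport ?_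
      exact ((P_supp 1).mul_left (f := fun z : V => z ⬝ᵥ e)).mul_right
    · show -(r / ρ) * (P 2 z * nrm (vort v (x₀ + r • z)))
        ≤ (z ⬝ᵥ e) * P 2 z * (vort v (x₀ + r • z) ⬝ᵥ cross z e)
      rcases lt_or_ge (z ⬝ᵥ z) 1 with hz | hz
      · obtain ⟨hy, hyr⟩ := in_ball' (x₀ := x₀) hr hrρ hz
        obtain ⟨-, hb2⟩ := hb _ hy
        rw [hyr] at hb2
        simp only [add_sub_cancel_left] at hb2
        rw [smul_dotProduct, cross_smul, dotProduct_smul, smul_eq_mul, smul_eq_mul] at hb2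
        set W := nrm (vort v (x₀ + r • z)) with hW
        set Q := vort v (x₀ + r • z) ⬝ᵥ cross z e
        have hz1 := (nrm_lt_one hz).le
        have hz0 := nrm_nonneg z
        have hW0 : 0 ≤ W := nrm_nonneg _
        have h3 : -(W * r / ρ) ≤ (z ⬝ᵥ e) * Q := by
          have h4 : r ^ 2 * -(W * (r * nrm z ^ 3) / ρ) ≤ r ^ 2 * ((z ⬝ᵥ e) * Q) := by
            have e1 : r ^ 2 * -(W * (r * nrm z ^ 3) / ρ) = -(W * (r * nrm z) ^ 3 / ρ) := by
              ring
            have e2 : r ^ 2 * ((z ⬝ᵥ e) * Q) = r * (z ⬝ᵥ e) * (r * Q) := by ring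
            rw [e1, e2]
            exact hb2
          have h5 := le_of_mul_le_mul_left h4 (by positivity)
          refine le_trans ?_ h5
          have h6 : nrm z ^ 3 ≤ 1 := pow_le_one₀ hz0 hz1
          have h7 : W * (r * nrm z ^ 3) / ρ ≤ W * r / ρ := by
            have : r * nrm z ^ 3 ≤ r := mul_le_of_le_one_right hr.le h6
            gcongr
          linarith
        have hp := P_nonneg 2 z
        calc -(r / ρ) * (P 2 z * W) = P 2 z * -(W * r / ρ) := by ring
          _ ≤ P 2 z * ((z ⬝ᵥ e) * Q) := mul_le_mul_of_nonneg_left h3 hp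
          _ = (z ⬝ᵥ e) * P 2 z * Q := by ring
      · have e2 : P 2 z = 0 := P_zero_of hz
        rw [e2]
        simp
  have h3 : r * -(6 / ρ * ∫ z, P 2 z * nrm (vort v (x₀ + r • z)))
      ≤ r * ∫ z, P 3 z * fderiv ℝ (rate v e) (x₀ + r • z) z := by
    rw [h1]
    calc r * -(6 / ρ * ∫ z, P 2 z * nrm (vort v (x₀ + r • z)))
        = 6 * (-(r / ρ) * ∫ z, P 2 z * nrm (vort v (x₀ + r • z))) := by ring
      _ ≤ _ := mul_le_mul_of_nonneg_left h2 (by norm_num)
  exact le_of_mul_le_mul_left h3 hr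

/-- The mean vorticity in the cone. -/
lemma J_le (hv : ContDiff ℝ 2 v) (he : nrm e ≤ 1) {ρ a : ℝ} (ha : 0 < a)
    (hb : Tw v x₀ e ρ a) {r : ℝ} (hr : 0 < r) (hrρ : r ≤ ρ) (c : V) :
    ∫ z, P 2 z * nrm (vort v (x₀ + r • z)) ≤ 24 / (a * r) * N v x₀ c r := by
  have hωc : Continuous fun z => vort v (x₀ + r • z) := (vort_cont hv).comp (by fun_prop)
  have h1 : a * ∫ z, P 2 z * nrm (vort v (x₀ + r • z))
      ≤ ∫ z, P 2 z * (vort v (x₀ + r • z) ⬝ᵥ e) := by
    rw [← integral_const_mul]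
    refine integral_mono ((J_cont hv 1 r).const_mul _) ?_ fun z => ?_
    · have c1 : Continuous fun z : V => vort v (x₀ + r • z) ⬝ᵥ e := by
        simp only [dotProduct]
        exact continuous_finsetSum _ fun i _ =>
          ((continuous_apply i).comp hωc).mul continuous_const
      exact ((P_cont 2).mul c1).integrable_of_hasCompactSupport (P_supp 1).mul_right
    · show a * (P 2 z * nrm (vort v (x₀ + r • z))) ≤ P 2 z * (vort v (x₀ + r • z) ⬝ᵥ e)
      rcases lt_or_ge (z ⬝ᵥ z) 1 with hz | hz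
      · obtain ⟨hy, -⟩ := in_ball' (x₀ := x₀) hr hrρ hz
        have h2 := (hb _ hy).1
        have hp := P_nonneg 2 z
        calc a * (P 2 z * nrm (vort v (x₀ + r • z)))
            = P 2 z * (a * nrm (vort v (x₀ + r • z))) := by ring
          _ ≤ _ := mul_le_mul_of_nonneg_left h2 hp
      · have e2 : P 2 z = 0 := P_zero_of hz
        rw [e2]
        simp
  have h2 := h1.trans (curl_avg hv he hr x₀ c)
  have h3 : ∫ z, P 2 z * nrm (vort v (x₀ + r • z)) ≤ (24 / r * N v x₀ c r) / a := by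
    rw [le_div_iff₀ ha]; linarith
  refine h3.trans (le_of_eq ?_)
  field_simp

end Q177.OS
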