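import Pool.Agent.Q177.OS.Hol

/-!
# Evolution of the maximal vorticity with a logarithmic rate
-/

set_option autoImplicit false

open MeasureTheory Set Topology Filter
open scoped NNReal ENNReal Pointwise

namespace Q177.OS

open Pool.Agent.H708R2.EulerSign Pool.Agent.H708R2.EulerTypeI
open Pool.Agent.W786.Dir Pool.Agent.W786.Max Q177.EF

variable {T : ℝ} {u : ℝ → V → V} {p : ℝ → V → ℝ}

/-- The bound of the vorticity with a logarithmic rate at one maximum point. -/
theorem log_bound (h : IsC2Solution T u p) {b : ℝ → ℝ} {Λ K : ℝ} (hb0 : ∀ t, 0 ≤ b t)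
    (hint : IntegrableOn b (Ioo 0 T))
    (hyp : ∀ᵐ t, t ∈ Ioo 0 T → ∃ x, IsMaxPt u t x ∧
      (Λ < nrm (vort (u t) x) →
        Pq u t x ≤ b t * (1 + Real.log (nrm (vort (u t) x))) * Wq u t x))
    (hK1 : 1 ≤ K) (hKΛ : Λ ≤ K) (hK0 : ∀ x, nrm (vort (u 0) x) ≤ K) :
    ∀ t ∈ Ioo 0 T, ∀ x, nrm (vort (u t) x)
      ≤ Real.exp ((2 + Real.log K) * Real.exp (∫ s in Ioo 0 t, b s)) := by
  intro c hc x₂
  have hbi : IntegrableOn b (Icc 0 c) := by
    rw [integrableOn_Icc_iff_integrableOn_Ioo]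
    exact hint.mono_set (Ioo_subset_Ioo_right hc.2.le)
  have hlogK : 0 ≤ Real.log K := Real.log_nonneg hK1
  have hIc : ∫ s in (0 : ℝ)..c, b s = ∫ s in Ioo 0 c, b s := by
    rw [intervalIntegral.integral_of_le hc.1.le, integral_Ioc_eq_integral_Ioo]
  -- the last time at which the vorticity is at most `K`
  have hnc : ∀ y, ContinuousOn (fun t => nrm (vort (u t) y)) (Icc 0 c) := by
    intro y
    have h1 := nrm_vort_cont h.sol hc.2
    have h2 : Continuous fun t : ℝ => ((t, y) : ℝ × V) := by fun_prop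
    have h3 := h1.comp (s := Icc 0 c) h2.continuousOn fun t ht => ⟨ht, mem_univ _⟩
    simpa only [Function.comp_def] using h3
  set S : Set ℝ := {t ∈ Icc 0 c | ∀ y, nrm (vort (u t) y) ≤ K} with hS
  have hSc : IsCompact S := by
    have : IsClosed S := by
      have h1 : S = Icc 0 c ∩ ⋂ y, (Icc 0 c ∩ (fun t => nrm (vort (u t) y)) ⁻¹' Iic K) := by
        ext t
        simp only [hS, mem_inter_iff, mem_iInter, mem_preimage, mem_Iic]
        constructor
        · rintro ⟨h1, h2⟩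
          exact ⟨h1, fun y => ⟨h1, h2 y⟩⟩
        · rintro ⟨h1, h2⟩
          exact ⟨h1, fun y => (h2 y).2⟩
      rw [h1]
      exact isClosed_Icc.inter (isClosed_iInter fun y =>
        (hnc y).preimage_isClosed_of_isClosed isClosed_Icc isClosed_Iic)
    exact isCompact_Icc.of_isClosed_subset this fun t ht => ht.1
  have hSne : S.Nonempty := ⟨0, ⟨le_rfl, hc.1.le⟩, hK0⟩
  obtain ⟨hsI, hsK⟩ := hSc.sSup_mem hSne
  set s := sSup S with hs
  have hlt : ∀ t ∈ Ioc s c, ∀ z, IsMaxPt u t z → K < nrm (vort (u t) z) := by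
    intro t ht z hz
    by_contra h1
    push Not at h1
    have : t ∈ S := ⟨⟨hsI.1.trans ht.1.le, ht.2⟩, fun y => (hz y).trans h1⟩
    exact absurd (le_csSup hSc.bddAbove this) (not_le.2 ht.1)
  obtain ⟨C, hC0, hCg⟩ := Mx_growth h hc.2
  -- the function `log (2 + log (1 + M))`
  have hpos1 : ∀ y : ℝ, 0 ≤ y → 0 < y + 1 := fun y hy => by linarith
  have hlog1 : ∀ y : ℝ, 0 ≤ y → 0 ≤ Real.log (y + 1) := fun y hy => Real.log_nonneg (by linarith)
  set Φ : ℝ → ℝ := fun y => Real.log (2 + Real.log (y + 1)) with hΦ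
  have hΦm : MonotoneOn Φ (Ici 0) := by
    intro y hy z _ hyz
    have hy0 : (0 : ℝ) ≤ y := hy
    have h1 := hlog1 y hy0
    exact Real.log_le_log (by linarith) (by
      have := Real.log_le_log (hpos1 y hy0) (show y + 1 ≤ z + 1 by linarith)
      linarith)
  have hΦd : ∀ y : ℝ, 0 ≤ y →
      HasDerivAt Φ (1 / (y + 1) / (2 + Real.log (y + 1))) y := by
    intro y hy
    have h1 := hlog1 y hy
    have h2 : HasDerivAt (fun y => 2 + Real.log (y + 1)) (1 / (y + 1)) y :=
      (((hasDerivAt_id y).add_const 1).log (hpos1 y hy).ne').const_add 2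
    exact h2.log (by linarith)
  have hLip : ∀ r ∈ Icc s c, ∀ t ∈ Icc s c, r ≤ t →
      Φ (Mx u t) - Φ (Mx u r) ≤ 2 * C * (t - r) := by
    intro r hr t ht hrt
    have h2 := hCg r ⟨hsI.1.trans hr.1, hr.2⟩ t ⟨hsI.1.trans ht.1, ht.2⟩ hrt
    have hMr := Mx_nonneg (u := u) r
    have hMt := Mx_nonneg (u := u) t
    have hE0 : 0 ≤ 2 * C * (t - r) := by
      have : 0 ≤ t - r := by linarith
      positivity
    have h3 : 1 ≤ Real.exp (2 * C * (t - r)) := Real.one_le_exp hE0
    have h4 : Mx u t + 1 ≤ (Mx u r + 1) * Real.exp (2 * C * (t - r)) := by nlinarith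
    have h5 := Real.log_le_log (hpos1 _ hMt) h4
    rw [Real.log_mul (hpos1 _ hMr).ne' (Real.exp_pos _).ne', Real.log_exp] at h5
    have h6 := hlog1 _ hMr
    have h7 := hlog1 _ hMt
    have h8 : 2 + Real.log (Mx u t + 1)
        ≤ (2 + Real.log (Mx u r + 1)) * Real.exp (2 * C * (t - r)) := by
      have h9 := Real.add_one_le_exp (2 * C * (t - r))
      nlinarith
    have h9 := Real.log_le_log (by linarith) h8
    rw [Real.log_mul (by positivity) (Real.exp_pos _).ne', Real.log_exp] at h9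
    simp only [hΦ]
    linarith
  have hbi' : IntegrableOn b (Icc s c) := hbi.mono_set (Icc_subset_Icc_left hsI.1)
  have key : Φ (Mx u c) - Φ (Mx u s) ≤ ∫ t in s..c, b t := by
    refine growth_of_ae (L := fun t => Φ (Mx u t)) (C := 2 * C) hsI.2 hLip
      ((intervalIntegrable_iff_integrableOn_Icc_of_le hsI.2).2 hbi') ?_
    filter_upwards [hyp] with t ht htI d hd
    have htT : t ∈ Ioo 0 T := ⟨hsI.1.trans_lt htI.1, htI.2.trans hc.2⟩
    obtain ⟨x, hx, hx2⟩ := ht htT
    have hKx := hlt t ⟨htI.1, htI.2.le⟩ x hx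
    have hDx := hx2 (hKΛ.trans_lt hKx)
    set m := nrm (vort (u t) x) with hm
    have hm1 : 1 < m := hK1.trans_lt hKx
    have hm0 : 0 < m := by linarith
    have hWm : Wq u t x = m ^ 2 := Wq_eq t x
    have hlogm : 0 < Real.log m := Real.log_pos hm1
    have hP : vort (u t) x ⬝ᵥ (grad (u t) x).mulVec (vort (u t) x)
        ≤ b t * (1 + Real.log m) * m ^ 2 := by
      rw [← hWm]
      exact hDx
    have hW0 := Wq_nonneg (u := u) t x
    have h2 := deriv_le h htT hx hΦm (hΦd _ hW0) hd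
    refine h2.trans ?_
    have hq : 0 < 2 + Real.log (Wq u t x + 1) := by
      have := hlog1 _ hW0
      linarith
    have hw1 := hpos1 _ hW0
    have h3 : 2 * Real.log m ≤ Real.log (Wq u t x + 1) := by
      have e4 : 2 * Real.log m = Real.log (m ^ 2) := by
        rw [Real.log_pow]
        norm_num
      rw [e4]
      exact Real.log_le_log (by positivity) (by rw [hWm]; linarith)
    rw [div_div, div_mul_eq_mul_div, one_mul, div_le_iff₀ (by positivity)]
    calc 2 * (vort (u t) x ⬝ᵥ (grad (u t) x).mulVec (vort (u t) x))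
        ≤ 2 * (b t * (1 + Real.log m) * m ^ 2) := by linarith
      _ = b t * (m ^ 2 * (2 + 2 * Real.log m)) := by ring
      _ ≤ b t * ((Wq u t x + 1) * (2 + Real.log (Wq u t x + 1))) := by
          have := hb0 t
          have h4 : m ^ 2 ≤ Wq u t x + 1 := by rw [hWm]; linarith
          gcongr
  -- conclusion
  have hint0 : ∫ t in s..c, b t ≤ ∫ t in (0 : ℝ)..c, b t := by
    have h1 : IntervalIntegrable b volume 0 s :=
      (intervalIntegrable_iff_integrableOn_Icc_of_le hsI.1).2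
        (hbi.mono_set (Icc_subset_Icc_right hsI.2))
    have h2 : IntervalIntegrable b volume s c :=
      (intervalIntegrable_iff_integrableOn_Icc_of_le hsI.2).2 hbi'
    have h3 := intervalIntegral.integral_add_adjacent_intervals h1 h2
    have h4 : 0 ≤ ∫ t in (0 : ℝ)..s, b t :=
      intervalIntegral.integral_nonneg hsI.1 fun t _ => hb0 t
    linarith
  have hMc := Mx_nonneg (u := u) c
  have hMs := Mx_nonneg (u := u) s
  have hMsK : Mx u s ≤ K ^ 2 := Mx_le hsK
  have hfin : 2 + Real.log (Mx u c + 1)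
      ≤ (2 + Real.log (Mx u s + 1)) * Real.exp (∫ t in (0 : ℝ)..c, b t) := by
    have h1 : Real.log (2 + Real.log (Mx u c + 1))
        ≤ Real.log (2 + Real.log (Mx u s + 1)) + ∫ t in (0 : ℝ)..c, b t := by
      simp only [hΦ] at key
      linarith
    have h2 := Real.exp_le_exp.2 h1
    have h3 := hlog1 _ hMc
    have h4 := hlog1 _ hMs
    rwa [Real.exp_log (by linarith), Real.exp_add, Real.exp_log (by linarith)] at h2
  rw [hIc] at hfin
  set E := Real.exp (∫ s in Ioo 0 c, b s) with hE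
  have hE1 : 0 < E := Real.exp_pos _
  have hKlog : Real.log (Mx u s + 1) ≤ 2 + 2 * Real.log K := by
    have h1 : Mx u s + 1 ≤ Real.exp 2 * K ^ 2 := by
      have h2 : (2 : ℝ) ≤ Real.exp 2 := by
        have := Real.add_one_le_exp (2 : ℝ)
        linarith
      have h3 : 1 ≤ K ^ 2 := one_le_pow₀ hK1
      nlinarith
    have h2 := Real.log_le_log (hpos1 _ hMs) h1
    rw [Real.log_mul (Real.exp_pos _).ne' (by positivity), Real.log_exp, Real.log_pow] at h2
    push_cast at h2
    exact h2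
  have h5 : Real.log (Mx u c + 1) ≤ 2 * ((2 + Real.log K) * E) := by
    have h6 : (2 + Real.log (Mx u s + 1)) * E ≤ (2 + (2 + 2 * Real.log K)) * E := by gcongr
    linarith
  have h6 : Mx u c + 1 ≤ Real.exp ((2 + Real.log K) * E) ^ 2 := by
    rw [← Real.exp_nat_mul, ← Real.exp_log (hpos1 _ hMc)]
    refine Real.exp_le_exp.2 ?_
    push_cast
    exact h5
  have h7 : nrm (vort (u c) x₂) ^ 2 ≤ Real.exp ((2 + Real.log K) * E) ^ 2 := by
    rw [← Wq_eq]
    have := Wq_le h.sol ⟨hc.1.le, hc.2⟩ x₂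
    linarith
  exact (le_abs_self _).trans (abs_le_of_sq_le_sq h7 (Real.exp_pos _).le)


/-- Finiteness of the Beale-Kato-Majda integral. -/
theorem log_bkm (h : IsC2Solution T u p) {b : ℝ → ℝ} {Λ : ℝ} (hb0 : ∀ t, 0 ≤ b t)
    (hint : IntegrableOn b (Ioo 0 T))
    (hyp : ∀ᵐ t, t ∈ Ioo 0 T → ∃ x, IsMaxPt u t x ∧
      (Λ < nrm (vort (u t) x) →
        Pq u t x ≤ b t * (1 + Real.log (nrm (vort (u t) x))) * Wq u t x)) :
    BKMFinite T u := by
  unfold BKMFinite
  rcases le_or_gt T 0 with hT | hT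
  · rw [Ioo_eq_empty (not_lt.2 hT)]
    simp
  obtain ⟨W, hW0, hW⟩ := vort_bound h.sol (b := 0) hT
  set K := max 1 (max Λ W) with hK
  have hK1 : 1 ≤ K := le_max_left _ _
  have hKΛ : Λ ≤ K := (le_max_left _ _).trans (le_max_right _ _)
  have hK0 : ∀ x, nrm (vort (u 0) x) ≤ K := fun x =>
    ((hW 0 ⟨le_rfl, le_rfl⟩ x).1).trans ((le_max_right _ _).trans (le_max_right _ _))
  have hb := log_bound h hb0 hint hyp hK1 hKΛ hK0
  set M := Real.exp ((2 + Real.log K) * Real.exp (∫ s in Ioo 0 T, b s)) with hM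
  have hle : ∀ t ∈ Ioo 0 T, ∀ x, nrm (vort (u t) x) ≤ M := by
    intro t ht x
    refine (hb t ht x).trans (Real.exp_le_exp.2 ?_)
    have h0 : 0 ≤ Real.log K := Real.log_nonneg hK1
    refine mul_le_mul_of_nonneg_left (Real.exp_le_exp.2 ?_) (by linarith)
    refine setIntegral_mono_set hint ?_ (Ioo_subset_Ioo_right ht.2.le).eventuallyLE
    exact (ae_restrict_iff' measurableSet_Ioo).2 (Eventually.of_forall fun s _ => hb0 s)
  have h1 : ∫⁻ t in Ioo 0 T, ⨆ x, ENNReal.ofReal (nrm (vort (u t) x))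
      ≤ ∫⁻ _t in Ioo 0 T, ENNReal.ofReal M := by
    refine setLIntegral_mono' measurableSet_Ioo fun t ht => ?_
    exact iSup_le fun x => ENNReal.ofReal_le_ofReal (hle t ht x)
  refine h1.trans_lt ?_
  rw [setLIntegral_const, Real.volume_Ioo]
  exact ENNReal.mul_lt_top ENNReal.ofReal_lt_top ENNReal.ofReal_lt_top

end Q177.OS
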