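import Pool.Agent.Q177.OS.LogEvo

/-!
# Criteria by the oscillation of the velocity and the one-sided twist at one maximum point
-/

set_option autoImplicit false

open MeasureTheory Set Topology Filter
open scoped NNReal ENNReal Pointwise

namespace Q177.OS

open Pool.Agent.H708R2.EulerSign Pool.Agent.H708R2.EulerTypeI
open Pool.Agent.W786.Dir Pool.Agent.W786.Max Q177.EF

variable {T : ℝ} {u : ℝ → V → V} {p : ℝ → V → ℝ}

lemma q_nonneg {v : V → V} {x e : V} {ρ a α q : ℝ} (hρ : 0 < ρ) (hb : TwU v x e ρ a α (q * ρ)) :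
    0 ≤ q := by
  have h1 := (hb x (by rw [sub_self]; simpa [nrm] using hρ)).1
  rw [sub_self] at h1
  have h2 : nrm (0 : V) = 0 := by simp [nrm]
  rw [h2] at h1
  exact nonneg_of_mul_nonneg_left h1 hρ

/-- The rate at a maximum point, Lipschitz twist. -/
lemma max_one (h : IsC2Solution T u p) {t : ℝ} (ht : t ∈ Ioo 0 T) {x : V}
    (hx : IsMaxPt u t x) {ρ a q : ℝ} (hρ : 0 < ρ) (ha : 0 < a) (ha1 : a ≤ 1)
    (hb : TwU (u t) x (dirv (u t) x) ρ a 1 (q * ρ)) {δ : ℝ} (hδ : 0 < δ) (hδ1 : δ ≤ 1) :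
    stretch (u t) x ≤ Kve / a * (q * (1 + Real.log (1 / δ)) + δ * nrm (vort (u t) x)) := by
  have hq := q_nonneg hρ hb
  have h1 := rate_one (slice_two h ht) (h.sol.div_free t ⟨ht.1.le, ht.2⟩) nrm_dirv hρ ha ha1
    (by positivity) hb hx (nrm_nonneg _) hδ hδ1
  rwa [mul_div_assoc, div_self hρ.ne', mul_one] at h1

/-- The rate at a maximum point, Hölder twist. -/
lemma max_hol (h : IsC2Solution T u p) {t : ℝ} (ht : t ∈ Ioo 0 T) {x : V}
    (hx : IsMaxPt u t x) {ρ a α q : ℝ} (hρ : 0 < ρ) (ha : 0 < a) (ha1 : a ≤ 1) (hα : 0 < α)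
    (hα1 : α < 1) (hq : 0 < q) (hM : 0 < nrm (vort (u t) x))
    (hb : TwU (u t) x (dirv (u t) x) ρ a α (q * ρ)) :
    stretch (u t) x ≤ Kve / (a * α * (1 - α))
      * (q + q ^ α * nrm (vort (u t) x) ^ (1 - α)) := by
  have h1 := rate_hol (slice_two h ht) (h.sol.div_free t ⟨ht.1.le, ht.2⟩) nrm_dirv hρ ha ha1 hα
    hα1 (by positivity) hb hx hM
  rwa [mul_div_assoc, div_self hρ.ne', mul_one] at h1

lemma Pq_stretch (t : ℝ) (x : V) : Pq u t x = stretch (u t) x * Wq u t x := by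
  rw [Pq_eq, mul_comm]
  rfl

/-- **Lipschitz twist.** -/
theorem osgood (h : IsC2Solution T u p) {a : ℝ} (ha : 0 < a) (ha1 : a ≤ 1) {q : ℝ → ℝ} {Λ K : ℝ}
    (hq : IntegrableOn q (Ioo 0 T)) (hK1 : 1 ≤ K) (hKΛ : Λ ≤ K)
    (hK0 : ∀ x, nrm (vort (u 0) x) ≤ K)
    (hyp : ∀ᵐ t, t ∈ Ioo 0 T → ∃ x, IsMaxPt u t x ∧
      (Λ < nrm (vort (u t) x) →
        ∃ ρ, 0 < ρ ∧ TwU (u t) x (dirv (u t) x) ρ a 1 (q t * ρ))) :
    (∀ t ∈ Ioo 0 T, ∀ x, nrm (vort (u t) x)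
      ≤ Real.exp ((2 + Real.log K) * Real.exp (Kve / a * ∫ s in Ioo 0 t, (1 + |q s|)))) ∧
    BKMFinite T u := by
  have hKv := Kve_pos
  set b : ℝ → ℝ := fun t => Kve / a * (1 + |q t|) with hb
  have hb0 : ∀ t, 0 ≤ b t := fun t => by
    have := abs_nonneg (q t)
    positivity
  have hbi : IntegrableOn b (Ioo 0 T) := by
    have h2 : IntegrableOn (fun _ : ℝ => (1 : ℝ)) (Ioo 0 T) := integrableOn_const (by simp)
    exact (h2.add hq.abs).const_mul _
  have hyp' : ∀ᵐ t, t ∈ Ioo 0 T → ∃ x, IsMaxPt u t x ∧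
      (max Λ 1 < nrm (vort (u t) x) →
        Pq u t x ≤ b t * (1 + Real.log (nrm (vort (u t) x))) * Wq u t x) := by
    filter_upwards [hyp] with t ht htI
    obtain ⟨x, hx, hx2⟩ := ht htI
    refine ⟨x, hx, fun hlt => ?_⟩
    obtain ⟨ρ, hρ, hTw⟩ := hx2 ((le_max_left _ _).trans_lt hlt)
    have hm1 : 1 < nrm (vort (u t) x) := (le_max_right _ _).trans_lt hlt
    set m := nrm (vort (u t) x) with hm
    have hm0 : 0 < m := by linarith
    have hlog : 0 ≤ Real.log m := (Real.log_pos hm1).le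
    have h1 := max_one h htI hx hρ ha ha1 hTw (δ := 1 / m) (by positivity)
      (by rw [div_le_one hm0]; exact hm1.le)
    rw [one_div_one_div, ← hm, div_mul_cancel₀ _ hm0.ne'] at h1
    rw [Pq_stretch]
    refine mul_le_mul_of_nonneg_right (h1.trans ?_) (Wq_nonneg t x)
    have hq0 := abs_nonneg (q t)
    have h2 : q t * (1 + Real.log m) ≤ |q t| * (1 + Real.log m) :=
      mul_le_mul_of_nonneg_right (le_abs_self _) (by linarith)
    have h3 : q t * (1 + Real.log m) + 1 ≤ (1 + |q t|) * (1 + Real.log m) := by nlinarith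
    calc Kve / a * (q t * (1 + Real.log m) + 1)
        ≤ Kve / a * ((1 + |q t|) * (1 + Real.log m)) :=
          mul_le_mul_of_nonneg_left h3 (by positivity)
      _ = b t * (1 + Real.log m) := by simp only [hb]; ring
  refine ⟨?_, log_bkm h hb0 hbi hyp'⟩
  intro t ht x
  have h1 := log_bound h hb0 hbi hyp' hK1 (max_le hKΛ hK1) hK0 t ht x
  have h2 : ∫ s in Ioo 0 t, b s = Kve / a * ∫ s in Ioo 0 t, (1 + |q s|) := by
    simp only [hb]
    rw [integral_const_mul]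
  rwa [h2] at h1

/-- **Hölder twist, integral criterion.** -/
theorem hol_int (h : IsC2Solution T u p) {a α : ℝ} (ha : 0 < a) (ha1 : a ≤ 1) (hα : 0 < α)
    (hα1 : α < 1) {q Λ : ℝ → ℝ} (hq0 : ∀ t ∈ Ioo 0 T, 0 < q t)
    (hq : IntegrableOn (fun t => q t + q t ^ α * vmax (u t) ^ (1 - α)) (Ioo 0 T))
    (hΛ : MonotoneOn Λ (Ioo 0 T)) (hΛi : IntegrableOn Λ (Ioo 0 T)) (hΛ0 : ∀ t ∈ Ioo 0 T, 0 ≤ Λ t)
    (hyp : ∀ᵐ t, t ∈ Ioo 0 T → ∃ x, IsMaxPt u t x ∧
      (Λ t < nrm (vort (u t) x) →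
        ∃ ρ, 0 < ρ ∧ TwU (u t) x (dirv (u t) x) ρ a α (q t * ρ))) :
    BKMFinite T u := by
  have hKv := Kve_pos
  have hβ : 0 < 1 - α := by linarith
  refine gen_bkm h (β := fun t => Kve / (a * α * (1 - α))
    * (q t + q t ^ α * vmax (u t) ^ (1 - α))) ?_ (hq.const_mul _) hΛ hΛi ?_
  · intro t ht
    have h1 := hq0 t ht
    have h2 := vmax_nonneg (u t)
    positivity
  · filter_upwards [hyp] with t ht htI
    obtain ⟨x, hx, hx2⟩ := ht htI
    refine ⟨x, hx, fun hlt => ?_⟩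
    obtain ⟨ρ, hρ, hTw⟩ := hx2 hlt
    have hM : 0 < nrm (vort (u t) x) := (hΛ0 t htI).trans_lt hlt
    have h1 := max_hol h htI hx hρ ha ha1 hα hα1 (hq0 t htI) hM hTw
    rw [Pq_stretch, ← vmax_eq h ⟨htI.1.le, htI.2⟩ hx]
    exact mul_le_mul_of_nonneg_right h1 (Wq_nonneg t x)

lemma start {P : ℝ → Prop} (hT : 0 < T) (hP : ∀ᶠ t in 𝓝[<] T, P t) :
    ∃ t₀ ∈ Ioo 0 T, ∀ t ∈ Ico t₀ T, P t := by
  rw [eventually_nhdsWithin_iff, Metric.eventually_nhds_iff] at hP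
  obtain ⟨δ, hδ, h2⟩ := hP
  refine ⟨T - min (δ / 2) (T / 2), ⟨?_, ?_⟩, fun t ht => h2 ?_ ht.2⟩
  · have : min (δ / 2) (T / 2) ≤ T / 2 := min_le_right _ _
    linarith
  · have : 0 < min (δ / 2) (T / 2) := by positivity
    linarith
  · rw [Real.dist_eq, abs_lt]
    have : min (δ / 2) (T / 2) ≤ δ / 2 := min_le_left _ _
    constructor
    · linarith [ht.1]
    · linarith [ht.2]

lemma pow_int {c : ℝ} (hT : 0 < T) (hc : c < 1) :
    IntegrableOn (fun t => (T - t) ^ (-c)) (Ioo 0 T) := by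
  have h1 : IntervalIntegrable (fun x : ℝ => x ^ (-c)) volume (T - 0) (T - T) :=
    intervalIntegral.intervalIntegrable_rpow' (by linarith)
  have h2 := h1.comp_sub_left T
  rw [sub_sub_cancel, sub_sub_cancel] at h2
  exact (intervalIntegrable_iff_integrableOn_Ioo_of_le hT.le).1 h2

/-- **Hölder twist, power rates.** -/
theorem hol_rates (hT : 0 < T) (h : IsC2Solution T u p) {a α : ℝ} (ha : 0 < a) (ha1 : a ≤ 1)
    (hα : 0 < α) (hα1 : α < 1) {C m k n : ℝ} (hC : 0 < C) (hk : 0 < k) (hn : n < 1)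
    (hmn : α * n + (1 - α) * m < 1)
    (hM : ∀ᶠ t in 𝓝[<] T, vmax (u t) ≤ C * (T - t) ^ (-m))
    (hyp : ∀ᶠ t in 𝓝[<] T, ∃ x, IsMaxPt u t x ∧
      ((T - t) ^ (-(1 / 2) : ℝ) < nrm (vort (u t) x) →
        ∃ ρ, 0 < ρ ∧ TwU (u t) x (dirv (u t) x) ρ a α (k * (T - t) ^ (-n) * ρ))) :
    BKMFinite T u := by
  have hβ : 0 < 1 - α := by linarith
  set θ : ℝ := max n (α * n + (1 - α) * m) with hθ
  have hθ1 : θ < 1 := max_lt hn hmn
  have hθn : n ≤ θ := le_max_left _ _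
  have hθm : α * n + (1 - α) * m ≤ θ := le_max_right _ _
  have hKv := Kve_pos
  have hsmall : ∀ᶠ t in 𝓝[<] T, T - t ≤ 1 := by
    have : ∀ᶠ t in 𝓝 T, T - 1 < t := lt_mem_nhds (by linarith)
    filter_upwards [nhdsWithin_le_nhds this] with t ht
    linarith
  obtain ⟨t₀, ht₀, hP⟩ := start hT ((hM.and hyp).and hsmall)
  obtain ⟨B, hB0, hB⟩ := vmax_bound h.sol ht₀.2
  have hCα : 0 < C ^ (1 - α) := Real.rpow_pos_of_pos hC _
  have hkα : 0 < k ^ α := Real.rpow_pos_of_pos hk _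
  set D : ℝ := Kve / (a * α * (1 - α)) * (k + k ^ α * C ^ (1 - α)) with hD
  have hD0 : 0 < D := by positivity
  refine gen_bkm h (β := fun t => D * (T - t) ^ (-θ))
    (Λ := fun t => B + (T - t) ^ (-(1 / 2) : ℝ)) ?_ ((pow_int hT hθ1).const_mul D) ?_ ?_ ?_
  · intro t ht
    have : 0 ≤ (T - t) ^ (-θ) := Real.rpow_nonneg (by linarith [ht.2]) _
    positivity
  · intro s hs t ht hst
    have : (T - s) ^ (-(1 / 2) : ℝ) ≤ (T - t) ^ (-(1 / 2) : ℝ) :=
      Real.rpow_le_rpow_of_nonpos (by linarith [ht.2]) (by linarith) (by norm_num)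
    simp only
    linarith
  · exact Integrable.add (integrableOn_const (by simp)) (pow_int hT (by norm_num))
  · refine Filter.Eventually.of_forall fun t htI => ?_
    rcases lt_or_ge t t₀ with hlt | hge
    · obtain ⟨x, hx⟩ := exists_isMaxPt h.sol ⟨htI.1.le, htI.2⟩
      refine ⟨x, hx, fun h1 => ?_⟩
      exfalso
      have h2 := hB t ⟨htI.1.le, hlt.le⟩
      have h3 := le_vmax h.sol ⟨htI.1.le, htI.2⟩ x
      have h4 : 0 ≤ (T - t) ^ (-(1 / 2) : ℝ) := Real.rpow_nonneg (by linarith [htI.2]) _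
      linarith
    · obtain ⟨⟨hMt, x, hx, hx2⟩, ht1⟩ := hP t ⟨hge, htI.2⟩
      refine ⟨x, hx, fun h1 => ?_⟩
      have hε : 0 < T - t := by linarith [htI.2]
      have h4 : 0 ≤ (T - t) ^ (-(1 / 2) : ℝ) := Real.rpow_nonneg hε.le _
      obtain ⟨ρ, hρ, hTw⟩ := hx2 (by linarith)
      have hMx : 0 < nrm (vort (u t) x) := by linarith
      have hεn : 0 < (T - t) ^ (-n) := Real.rpow_pos_of_pos hε _
      have h5 := max_hol h htI hx hρ ha ha1 hα hα1 (by positivity) hMx hTw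
      rw [Pq_stretch]
      refine mul_le_mul_of_nonneg_right (h5.trans ?_) (Wq_nonneg t x)
      have hM' : nrm (vort (u t) x) ≤ C * (T - t) ^ (-m) :=
        (le_vmax h.sol ⟨htI.1.le, htI.2⟩ x).trans hMt
      have p1 : (T - t) ^ (-n) ≤ (T - t) ^ (-θ) :=
        Real.rpow_le_rpow_of_exponent_ge hε ht1 (by linarith)
      have p2 : (k * (T - t) ^ (-n)) ^ α = k ^ α * (T - t) ^ (-(α * n)) := by
        rw [Real.mul_rpow hk.le hεn.le, ← Real.rpow_mul hε.le]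
        congr 2
        ring
      have p3 : nrm (vort (u t) x) ^ (1 - α) ≤ C ^ (1 - α) * (T - t) ^ (-((1 - α) * m)) := by
        calc nrm (vort (u t) x) ^ (1 - α) ≤ (C * (T - t) ^ (-m)) ^ (1 - α) :=
              Real.rpow_le_rpow hMx.le hM' hβ.le
          _ = C ^ (1 - α) * (T - t) ^ (-((1 - α) * m)) := by
              rw [Real.mul_rpow hC.le (Real.rpow_nonneg hε.le _), ← Real.rpow_mul hε.le]
              congr 2
              ring
      have p4 : (T - t) ^ (-(α * n)) * (T - t) ^ (-((1 - α) * m)) ≤ (T - t) ^ (-θ) := by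
        rw [← Real.rpow_add hε]
        exact Real.rpow_le_rpow_of_exponent_ge hε ht1 (by linarith)
      have e1 : 0 < (T - t) ^ (-(α * n)) := Real.rpow_pos_of_pos hε _
      have p5 : (k * (T - t) ^ (-n)) ^ α * nrm (vort (u t) x) ^ (1 - α)
          ≤ k ^ α * C ^ (1 - α) * (T - t) ^ (-θ) := by
        rw [p2]
        calc k ^ α * (T - t) ^ (-(α * n)) * nrm (vort (u t) x) ^ (1 - α)
            ≤ k ^ α * (T - t) ^ (-(α * n)) * (C ^ (1 - α) * (T - t) ^ (-((1 - α) * m))) := by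
              gcongr
          _ = k ^ α * C ^ (1 - α) * ((T - t) ^ (-(α * n)) * (T - t) ^ (-((1 - α) * m))) := by
              ring
          _ ≤ _ := mul_le_mul_of_nonneg_left p4 (by positivity)
      have p6 : k * (T - t) ^ (-n) ≤ k * (T - t) ^ (-θ) := mul_le_mul_of_nonneg_left p1 hk.le
      calc Kve / (a * α * (1 - α)) * (k * (T - t) ^ (-n)
            + (k * (T - t) ^ (-n)) ^ α * nrm (vort (u t) x) ^ (1 - α))
          ≤ Kve / (a * α * (1 - α)) * (k * (T - t) ^ (-θ)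
            + k ^ α * C ^ (1 - α) * (T - t) ^ (-θ)) :=
            mul_le_mul_of_nonneg_left (add_le_add p6 p5) (by positivity)
        _ = D * (T - t) ^ (-θ) := by rw [hD]; ring

/-- **Hölder twist, the Type I threshold.** -/
theorem hol_type_one (hT : 0 < T) (h : IsC2Solution T u p) {a α : ℝ} (ha : 0 < a) (ha1 : a ≤ 1)
    (hα : 0 < α) (hα1 : α < 1) {C ε : ℝ} (hC : 0 < C) (hε : 0 < ε)
    (hth : 2 * Kve / (a * α * (1 - α)) * (ε + ε ^ α * C ^ (1 - α)) ≤ 1)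
    (hM : ∀ᶠ t in 𝓝[<] T, vmax (u t) ≤ C / (T - t))
    (hyp : ∀ᶠ t in 𝓝[<] T, ∃ x, IsMaxPt u t x ∧
      (1 / Real.sqrt (T - t) < nrm (vort (u t) x) →
        ∃ ρ, 0 < ρ ∧ TwU (u t) x (dirv (u t) x) ρ a α (ε / (T - t) * ρ))) :
    (∃ C : ℝ, ∀ᶠ t in 𝓝[<] T, ∀ x, nrm (vort (u t) x) ≤ C / Real.sqrt (T - t)) ∧
    BKMFinite T u := by
  have hβ : 0 < 1 - α := by linarith
  have hKv := Kve_pos
  obtain ⟨t₀, ht₀, hP⟩ := start hT (hM.and hyp)
  refine type_one_gen h ht₀ fun t ht => ?_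
  obtain ⟨hMt, x, hx, hx2⟩ := hP t ht
  refine ⟨x, hx, fun h1 => ?_⟩
  have htI : t ∈ Ioo 0 T := ⟨ht₀.1.trans_le ht.1, ht.2⟩
  have hτ : 0 < T - t := by linarith [htI.2]
  have hMx : 0 < nrm (vort (u t) x) := by
    refine lt_trans ?_ h1
    have := Real.sqrt_pos.2 hτ
    positivity
  obtain ⟨ρ, hρ, hTw⟩ := hx2 h1
  have h5 := max_hol h htI hx hρ ha ha1 hα hα1 (by positivity) hMx hTw
  rw [Pq_stretch]
  refine mul_le_mul_of_nonneg_right (h5.trans ?_) (Wq_nonneg t x)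
  have hM' : nrm (vort (u t) x) ≤ C / (T - t) :=
    (le_vmax h.sol ⟨htI.1.le, htI.2⟩ x).trans hMt
  have e1 : (ε / (T - t)) ^ α * nrm (vort (u t) x) ^ (1 - α)
      ≤ ε ^ α * C ^ (1 - α) / (T - t) := by
    have h6 : nrm (vort (u t) x) ^ (1 - α) ≤ (C / (T - t)) ^ (1 - α) :=
      Real.rpow_le_rpow hMx.le hM' hβ.le
    have h7 : 0 < (ε / (T - t)) ^ α := Real.rpow_pos_of_pos (by positivity) _
    calc (ε / (T - t)) ^ α * nrm (vort (u t) x) ^ (1 - α)
        ≤ (ε / (T - t)) ^ α * (C / (T - t)) ^ (1 - α) := by gcongr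
      _ = ε ^ α * C ^ (1 - α) / ((T - t) ^ α * (T - t) ^ (1 - α)) := by
          rw [Real.div_rpow hε.le hτ.le, Real.div_rpow hC.le hτ.le]
          field_simp
      _ = _ := by
          rw [← Real.rpow_add hτ]
          norm_num
  calc Kve / (a * α * (1 - α)) * (ε / (T - t)
        + (ε / (T - t)) ^ α * nrm (vort (u t) x) ^ (1 - α))
      ≤ Kve / (a * α * (1 - α)) * (ε / (T - t) + ε ^ α * C ^ (1 - α) / (T - t)) :=
        mul_le_mul_of_nonneg_left (add_le_add le_rfl e1) (by positivity)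
    _ = 2 * Kve / (a * α * (1 - α)) * (ε + ε ^ α * C ^ (1 - α)) / (2 * (T - t)) := by
        field_simp
    _ ≤ 1 / (2 * (T - t)) := by gcongr

end Q177.OS
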